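import Pool.Agent.MP_3bf126_pr.H40.Pack

/-! Semantics of the list operations used by the checker. -/

namespace Pool.Agent.MP_3bf126_pr.H40
open Finset

lemma za (a b : ℤ) : Int.add a b = a + b := rfl
lemma zm (a b : ℤ) : Int.mul a b = a * b := rfl
lemma zs (a b : ℤ) : Int.sub a b = a - b := rfl
lemma zn (a : ℤ) : Int.neg a = -a := rfl
lemma zo (a : ℕ) : Int.ofNat a = (a : ℤ) := rfl

lemma hd {α : Type} (l : List α) (d : α) : l.headD d = l.getD 0 d := by cases l <;> rfl
lemma tl {α : Type} (l : List α) (j : ℕ) (d : α) : l.tail.getD j d = l.getD (j + 1) d := by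
  cases l <;> simp

lemma zle_iff {a b : ℤ} : zle a b = true ↔ a ≤ b := by simp [zle]
lemma zmax_eq (a b : ℤ) : zmax a b = max a b := by
  unfold zmax
  cases h : zle a b
  · have : ¬ a ≤ b := by rw [← zle_iff, h]; simp
    simp only [cond_false]; omega
  · have : a ≤ b := zle_iff.1 h
    simp only [cond_true]; omega

lemma cond_blt {α : Type} (i j : ℕ) (x y : α) : cond (Nat.blt i j) x y = if i < j then x else y := by
  cases h : Nat.blt i j
  · have : ¬ i < j := by rw [← Nat.blt_eq, h]; simp
    simp [this]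
  · have : i < j := Nat.blt_eq ▸ h
    simp [this]

lemma zw_length {α β γ δ : Type} (f : α → β → γ → δ) (a0 : α) (b0 : β) (c0 : γ) (n : ℕ)
    (a : List α) (b : List β) (c : List γ) : (zw f a0 b0 c0 n a b c).length = n := by
  induction n generalizing a b c with
  | zero => rfl
  | succ n ih => simp [zw, ih]

lemma zw_getD {α β γ δ : Type} (f : α → β → γ → δ) (a0 : α) (b0 : β) (c0 : γ) {n j : ℕ} (hj : j < n)
    (a : List α) (b : List β) (c : List γ) (d : δ) :
    (zw f a0 b0 c0 n a b c).getD j d = f (a.getD j a0) (b.getD j b0) (c.getD j c0) := by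
  induction n generalizing a b c j with
  | zero => omega
  | succ n ih =>
    cases j with
    | zero => simp only [zw, List.getD_cons_zero, hd]
    | succ j => simp only [zw, List.getD_cons_succ, ih (show j < n by omega), tl]

lemma range_getD {n j : ℕ} (hj : j < n) : (List.range n).getD j 0 = j := by simp [hj]

lemma sufZ_getD (l : List ℤ) (i : ℕ) : (sufZ l).getD i 0 = ∑ j ∈ Ico i l.length, l.getD j 0 := by
  induction l generalizing i with
  | nil => cases i <;> simp [sufZ]
  | cons d l ih =>
    cases i with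
    | zero =>
      simp only [sufZ, List.getD_cons_zero, hd, ih, za, List.length_cons]
      rw [← range_eq_Ico, ← range_eq_Ico, sum_range_succ']
      simp [add_comm]
    | succ i =>
      simp only [sufZ, List.getD_cons_succ, ih, List.length_cons]
      rw [← sum_Ico_add' (fun j => (d :: l).getD j 0) i l.length 1]
      simp

lemma sufZ_zw {α β γ : Type} (f : α → β → γ → ℤ) (a0 : α) (b0 : β) (c0 : γ) (n : ℕ)
    (a : List α) (b : List β) (c : List γ) (i : ℕ) :
    (sufZ (zw f a0 b0 c0 n a b c)).getD i 0 =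
      ∑ j ∈ Ico i n, f (a.getD j a0) (b.getD j b0) (c.getD j c0) := by
  rw [sufZ_getD, zw_length]
  exact sum_congr rfl fun j hj => zw_getD f a0 b0 c0 (mem_Ico.1 hj).2 a b c 0

lemma rep_sufPV {G : ℕ} (ds : List ℤ) (vs : List PV) (f : ℕ → ℕ → ℤ)
    (h : ∀ r < vs.length, Rep G (vs.getD r PV.zero) (f r)) (i : ℕ) :
    Rep G ((sufPV ds vs).getD i PV.zero) fun k => ∑ j ∈ Ico i vs.length, ds.getD j 0 * f j k := by
  induction vs generalizing ds f i with
  | nil => cases ds <;> cases i <;> simpa [sufPV] using rep_zero G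
  | cons v vs ih =>
    cases ds with
    | nil => cases i <;> simpa [sufPV] using rep_zero G
    | cons d ds =>
      have h0 : Rep G v (f 0) := by simpa using h 0 (by simp)
      have h1 := ih ds (fun r => f (r + 1)) fun r hr => by simpa using h (r + 1) (by simpa using hr)
      cases i with
      | zero =>
        simp only [sufPV, List.getD_cons_zero, hd]
        refine ((h0.smul d).add (h1 0)).congr fun k _ => ?_
        rw [List.length_cons, ← range_eq_Ico, ← range_eq_Ico, sum_range_succ']
        simp [add_comm]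
      | succ i =>
        simp only [sufPV, List.getD_cons_succ]
        refine (h1 i).congr fun k _ => ?_
        rw [List.length_cons, ← sum_Ico_add' (fun j => (d :: ds).getD j 0 * f j k) i vs.length 1]
        simp

lemma fN_eq {β : Type} (n : ℕ) (k : ℕ → β) : fN n k = k n := by cases n <;> rfl
lemma fZ_eq {β : Type} (z : ℤ) (k : ℤ → β) : fZ z k = k z := by cases z <;> simp only [fZ, fN_eq]
lemma fL_eq {β : Type} (l : List PV) (k : List PV → β) : fL l k = k l := by
  induction l generalizing k with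
  | nil => rfl
  | cons v l ih => simp only [fL, fZ_eq, fN_eq, ih]

lemma sqs_eq (z : List ℤ) (vs : List PV) : sqs z vs = ∑ r ∈ range vs.length, z.getD r 0 ^ 2 := by
  induction vs generalizing z with
  | nil => cases z <;> simp [sqs]
  | cons v vs ih =>
    cases z with
    | nil => simp [sqs]
    | cons x z =>
      simp only [sqs, ih, za, zm, List.length_cons]
      rw [sum_range_succ']
      simp [add_comm, sq]

lemma rows_length (cx : Ctx) (gam : ℤ) (Vp : List PV) (n b : ℕ) (K : List PV) (Vs : List (List ℤ)) :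
    (rows cx gam Vp n b K Vs).length = n := by
  induction n generalizing b K Vs with
  | zero => rfl
  | succ n ih => simp [rows, ih]

lemma rows_getD (cx : Ctx) (gam : ℤ) (Vp : List PV) {n j : ℕ} (hj : j < n) (b : ℕ) (K : List PV)
    (Vs : List (List ℤ)) : (rows cx gam Vp n b K Vs).getD j PV.zero =
      ((((PV.smul gam (K.getD j PV.zero)).fl cx.bias cx.mask cx.b16).add
        (comb (Vs.map fun l => l.getD j 0) Vp)).add (PV.single (b + j) (Int.ofNat cx.G))) := by
  induction n generalizing b K Vs j with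
  | zero => omega
  | succ n ih =>
    cases j with
    | zero => simp only [rows, List.getD_cons_zero, hd, add_zero]
    | succ j =>
      simp only [rows, List.getD_cons_succ, ih (show j < n by omega), tl, List.map_map]
      have e1 : ((fun l : List ℤ => l.getD j 0) ∘ List.tail) = fun l => l.getD (j + 1) 0 :=
        funext fun l => tl l j 0
      have e2 : b.succ + j = b + (j + 1) := by omega
      rw [e1, e2]

lemma loop_get {cm : Com} {s0 s1 : Side} {ic n i : ℕ} {s : St} (h : loop cm s0 s1 ic n i s = true)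
    {j : ℕ} (hj : j < n) :
    nodeChk cm s0 s1 ic (i + j) (s.A.getD j 0) (s.lam.getD j 0) (s.RL.getD j PV.zero)
      (s.RR.getD j PV.zero) (s.c0.getD j PV.zero) (s.c1.getD j PV.zero) (s.P0.getD j 0) (s.P1.getD j 0)
      (s.d0.getD j 0) (s.d1.getD j 0) (s.e0.getD j 0) (s.e0.getD (j + 1) 0) (s.e1.getD j 0)
      (s.e1.getD (j + 1) 0) (s.od.getD j 0) (s.od.getD (j + 1) 0) (s.zL.getD j []) (s.zR.getD j []) = true := by
  induction n generalizing i s j with
  | zero => omega
  | succ n ih =>
    simp only [loop, Bool.and_eq_true] at h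
    cases j with
    | zero => simpa only [hd, tl, add_zero] using h.1
    | succ j =>
      have := ih h.2 (show j < n by omega)
      have e2 : i.succ + j = i + (j + 1) := by omega
      simpa only [St.tl, tl, e2] using this

lemma zeq_eq {a b : List ℤ} (h : zeq a b = true) : a = b := by
  induction a generalizing b with
  | nil => cases b <;> simp_all [zeq]
  | cons x a ih =>
    cases b with
    | nil => simp [zeq] at h
    | cons y b =>
      simp only [zeq, Bool.and_eq_true, decide_eq_true_eq] at h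
      rw [h.1, ih h.2]

lemma all_getD {α : Type} {l : List α} {p : α → Bool} (h : l.all p = true) {j : ℕ} (hj : j < l.length)
    (d : α) : p (l.getD j d) = true := by
  rw [List.getD_eq_getElem _ _ hj]
  exact List.all_eq_true.1 h _ (List.getElem_mem hj)

/-- real-valued form of `Rep` -/
def RepR (G : ℕ) (v : PV) (f : ℕ → ℝ) : Prop := ∃ u : ℕ → ℤ, Rep G v u ∧ ∀ k < G, (u k : ℝ) = f k

lemma Rep.real {G : ℕ} {v : PV} {u : ℕ → ℤ} (h : Rep G v u) {f : ℕ → ℝ} (e : ∀ k < G, (u k : ℝ) = f k) :
    RepR G v f := ⟨u, h, e⟩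

lemma RepR.congr {G : ℕ} {v : PV} {f f' : ℕ → ℝ} (h : RepR G v f) (e : ∀ k < G, f k = f' k) :
    RepR G v f' := by
  obtain ⟨u, h1, h2⟩ := h
  exact ⟨u, h1, fun k hk => (h2 k hk).trans (e k hk)⟩

lemma RepR.add {G : ℕ} {a b : PV} {f f' : ℕ → ℝ} (h : RepR G a f) (h' : RepR G b f') :
    RepR G (a.add b) fun k => f k + f' k := by
  obtain ⟨u, h1, h2⟩ := h
  obtain ⟨u', h1', h2'⟩ := h'
  exact ⟨_, h1.add h1', fun k hk => by push_cast; rw [h2 k hk, h2' k hk]⟩

lemma RepR.smul {G : ℕ} {a : PV} {f : ℕ → ℝ} (h : RepR G a f) (c : ℤ) :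
    RepR G (PV.smul c a) fun k => c * f k := by
  obtain ⟨u, h1, h2⟩ := h
  exact ⟨_, h1.smul c, fun k hk => by push_cast; rw [h2 k hk]⟩

lemma RepR.nonneg {G : ℕ} {v : PV} {f : ℕ → ℝ} (h : RepR G v f)
    (hn : v.nn (rp 730750818665451459101842416358141509827966271488 G) = true) : ∀ k < G, 0 ≤ f k := by
  obtain ⟨u, h1, h2⟩ := h
  intro k hk
  rw [← h2 k hk]
  exact_mod_cast h1.nonneg hn k hk

lemma RepR.get {G : ℕ} {v : PV} {f : ℕ → ℝ} (h : RepR G v f) (hs : v.small = true) {k : ℕ}
    (hk : k < G) : (getx (rp 730750818665451459101842416358141509827966271488 G) v.x k : ℝ) = f k := by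
  obtain ⟨u, h1, h2⟩ := h
  rw [h1.get hs hk, h2 k hk]

lemma repR_comb {G : ℕ} (zs : List ℤ) (vs : List PV) (f : ℕ → ℕ → ℝ)
    (h : ∀ r < vs.length, RepR G (vs.getD r PV.zero) (f r)) :
    RepR G (comb zs vs) fun k => ∑ r ∈ range vs.length, zs.getD r 0 * f r k := by
  choose! u h1 h2 using h
  refine ⟨_, rep_comb zs vs u h1, fun k hk => ?_⟩
  push_cast
  exact sum_congr rfl fun r hr => by rw [h2 r (mem_range.1 hr) k hk]

lemma repR_sufPV {G : ℕ} (ds : List ℤ) (vs : List PV) (f : ℕ → ℕ → ℝ)
    (h : ∀ r < vs.length, RepR G (vs.getD r PV.zero) (f r)) (i : ℕ) :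
    RepR G ((sufPV ds vs).getD i PV.zero) fun k => ∑ j ∈ Ico i vs.length, ds.getD j 0 * f j k := by
  choose! u h1 h2 using h
  refine ⟨_, rep_sufPV ds vs u h1 i, fun k hk => ?_⟩
  push_cast
  exact sum_congr rfl fun r hr => by rw [h2 r (mem_Ico.1 hr).2 k hk]

lemma repR_pk (G : ℕ) (l : List ℤ) : RepR G (pk G l) fun k => l.getD k 0 := ⟨_, rep_pk G l, fun _ _ => rfl⟩

lemma repR_single {G b : ℕ} (hb : b < G) (c : ℤ) :
    RepR G (PV.single b c) fun k => if k = b then c else 0 :=
  ⟨_, rep_single hb c, fun k _ => by by_cases h : k = b <;> simp [h]⟩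

end Pool.Agent.MP_3bf126_pr.H40
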