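import Pool.Agent.MP_3bf126_pr.H40.Cell

/-! Algebraic certificates for the node inequalities. -/

namespace Pool.Agent.MP_3bf126_pr.H40
open Finset
noncomputable section
namespace Grid
variable (g : Grid)

def Psd (K : ℕ → ℕ → ℝ) : Prop := ∀ N, 0 ≤ g.Q K N

lemma psd_lin {K : ℕ → ℕ → ℝ} (hs : g.Sym K) (hp : g.Psd K) (N m : ℕ → ℝ) :
    2 * g.dot N (fun b => g.dot (K b) m) - g.Q K m ≤ g.Q K N := by
  have h := hp fun b => N b + (-m b)
  rw [g.Q_add hs] at h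
  have e1 : g.Q K (fun b => -m b) = g.Q K m := by simp [Q]
  have e2 : g.dot N (fun b => g.dot (K b) fun b => -m b) = -g.dot N (fun b => g.dot (K b) m) := by
    simp [dot]
  rw [e1, e2] at h
  linarith

lemma Q_update {K0 K1 e : ℕ → ℕ → ℝ} {γ ε : ℝ} {R : ℕ} {V : ℕ → ℕ → ℝ}
    (h : ∀ b < g.G, ∀ b' < g.G, K0 b b' = γ * K1 b b' + ∑ r ∈ range R, V r b * V r b' + e b b' +
      if b' = b then g.G * ε else 0) (he : ∀ b < g.G, ∀ b' < g.G, |e b b'| ≤ ε) (N : ℕ → ℝ) :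
    γ * g.Q K1 N + ∑ r ∈ range R, g.dot (V r) N ^ 2 ≤ g.Q K0 N := by
  have e1 : ∑ r ∈ range R, g.dot (V r) N ^ 2 =
      ∑ b ∈ range g.G, ∑ b' ∈ range g.G, (∑ r ∈ range R, V r b * V r b') * N b * N b' := by
    simp only [dot, sq, sum_mul_sum]
    rw [sum_comm]
    refine sum_congr rfl fun b _ => ?_
    rw [sum_comm]
    refine sum_congr rfl fun b' _ => ?_
    simp only [sum_mul]
    exact sum_congr rfl fun r _ => by ring
  have e2 : ∑ b ∈ range g.G, ∑ b' ∈ range g.G, (if b' = b then g.G * ε else 0) * N b * N b' =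
      ∑ b ∈ range g.G, ∑ b' ∈ range g.G, ε * (N b ^ 2 + N b' ^ 2) / 2 := by
    have a1 : ∀ b ∈ range g.G, ∑ b' ∈ range g.G, (if b' = b then g.G * ε else 0) * N b * N b' =
        g.G * ε * N b ^ 2 := fun b hb => by
      simp only [ite_mul, zero_mul, sum_ite_eq', hb, if_true]; ring
    rw [sum_congr rfl a1]
    simp only [mul_add, add_div, sum_add_distrib, sum_const, card_range, nsmul_eq_mul, mul_sum]
    rw [← sum_add_distrib]
    exact sum_congr rfl fun b _ => by ring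
  have e3 : g.Q K0 N = γ * g.Q K1 N + ∑ r ∈ range R, g.dot (V r) N ^ 2 +
      ∑ b ∈ range g.G, ∑ b' ∈ range g.G, (e b b' * N b * N b' + ε * (N b ^ 2 + N b' ^ 2) / 2) := by
    simp only [sum_add_distrib]
    rw [e1, ← e2]
    simp only [Q, mul_sum, ← sum_add_distrib]
    refine sum_congr rfl fun b hb => sum_congr rfl fun b' hb' => ?_
    rw [h b (mem_range.1 hb) b' (mem_range.1 hb')]; ring
  rw [e3]
  refine le_add_of_nonneg_right (sum_nonneg fun b hb => sum_nonneg fun b' hb' => ?_)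
  have := abs_le.1 (he b (mem_range.1 hb) b' (mem_range.1 hb'))
  nlinarith [mul_nonneg (sub_nonneg.2 this.2) (sq_nonneg (N b - N b')),
    mul_nonneg (show 0 ≤ ε + e b b' by linarith) (sq_nonneg (N b + N b'))]

lemma D_nonneg {f u : ℕ → ℝ} (hf : ∀ b < g.G, 0 ≤ f b) (hu : ∀ b < g.G, 0 ≤ u b) {ξ : List ℝ}
    (hξ : ∀ x ∈ ξ, 0 ≤ x) : 0 ≤ g.D f u ξ :=
  add_nonneg (sum_nonneg fun b hb => mul_nonneg (hf b (mem_range.1 hb)) (g.aL_nonneg hξ (mem_range.1 hb)))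
    (sum_nonneg fun b hb => mul_nonneg (hu b (mem_range.1 hb)) (g.aR_nonneg hξ (mem_range.1 hb)))

def cum (K : ℕ → ℕ → ℝ) (i b : ℕ) : ℝ := ∑ b' ∈ Ico i g.G, g.h b' * K b' b
def Phi (nd : Node) (i : ℕ) : ℝ := ∑ b ∈ Ico i g.G, g.h b * (nd.pL b + nd.pR b)
def dg (K : ℕ → ℕ → ℝ) (i : ℕ) : ℝ := ∑ b ∈ Ico i g.G, g.h b * K b b

lemma T_eq (nd : Node) (ξ : List ℝ) (i : ℕ) :
    g.T nd ξ i = g.Phi nd i / 2 - g.dg nd.K i - 2 * g.dot (g.cum nd.K i) (g.N ξ) := by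
  have e : g.dot (g.cum nd.K i) (g.N ξ) = ∑ b ∈ Ico i g.G, g.h b * g.dot (nd.K b) (g.N ξ) := by
    simp only [dot, cum, sum_mul, mul_sum]
    rw [sum_comm]
    exact sum_congr rfl fun b _ => sum_congr rfl fun b' _ => by ring
  rw [e]
  simp only [T, Phi, dg, kap, sum_div, mul_sum, ← sum_sub_distrib]
  exact sum_congr rfl fun b _ => by ring

lemma D_lin1 (p1 p0 r pd ps p1' p0' r' pd' ps' zv km cu : ℕ → ℝ) (Δ μ l A B : ℝ) (ξ : List ℝ) :
    g.D (fun b => p1 b - p0 b + Δ * (r b - μ * pd b + l * ps b) +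
      (2 * A * zv b + 2 * B * km b - 2 * Δ * cu b))
      (fun b => p1' b - p0' b + Δ * (r' b - μ * pd' b + l * ps' b) +
      (2 * A * zv b + 2 * B * km b - 2 * Δ * cu b)) ξ =
    g.D p1 p1' ξ - g.D p0 p0' ξ + Δ * (g.D r r' ξ - μ * g.D pd pd' ξ + l * g.D ps ps' ξ) +
      (2 * A * g.dot zv (g.N ξ) + 2 * B * g.dot (g.N ξ) km - 2 * Δ * g.dot cu (g.N ξ)) := by
  simp only [D, dot, N, mul_add, mul_sub, mul_sum, ← sum_add_distrib, ← sum_sub_distrib]
  exact sum_congr rfl fun b _ => by ring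

lemma D_lin2 (o km p p' : ℕ → ℝ) (ξ : List ℝ) :
    g.D (fun b => o b + 2 * km b - p b) (fun b => o b + 2 * km b - p' b) ξ =
      g.D o o ξ + 2 * g.dot (g.N ξ) km - g.D p p' ξ := by
  simp only [D, dot, N, mul_sum, ← sum_add_distrib, ← sum_sub_distrib]
  exact sum_congr rfl fun b _ => by ring

lemma en_alg {n0 n1 nd : Node} {Δ s cs aq aq' γ : ℝ} {R : ℕ} {V : ℕ → ℕ → ℝ} {z m : ℕ → ℝ}
    {psL psR ω cr lam : ℕ → ℝ} {ic i : ℕ}
    (hq : ∀ N, g.Q n0.K N - g.Q n1.K N + Δ * (g.a i + lam i) * g.Q nd.K N =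
      aq * g.Q n0.K N - aq' * g.Q n1.K N)
    (haq : 0 ≤ aq) (hb : 0 ≤ γ * aq - aq')
    (hK0 : ∀ N, γ * g.Q n1.K N + ∑ r ∈ range R, g.dot (V r) N ^ 2 ≤ g.Q n0.K N)
    (hs : g.Sym n1.K) (hp : g.Psd n1.K)
    (hc : 0 ≤ n1.c - n0.c + Δ * (g.a i + s * g.a i ^ 2 / 2 - cr i - (g.a i + lam i) * nd.c +
      lam i * cs + g.Phi nd i / 2 - g.dg nd.K i) - aq * ∑ r ∈ range R, z r ^ 2 -
      (γ * aq - aq') * g.dot m (fun b => g.dot (n1.K b) m))
    (hL : ∀ b < g.G, 0 ≤ n1.pL b - n0.pL b +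
      Δ * (g.rL ω i b - (g.a i + lam i) * nd.pL b + lam i * psL b) +
      (2 * aq * ∑ r ∈ range R, z r * V r b + 2 * (γ * aq - aq') * g.dot (n1.K b) m -
        2 * Δ * g.cum nd.K i b))
    (hR : ∀ b < g.G, 0 ≤ n1.pR b - n0.pR b +
      Δ * (g.rR ω ic i b - (g.a i + lam i) * nd.pR b + lam i * psR b) +
      (2 * aq * ∑ r ∈ range R, z r * V r b + 2 * (γ * aq - aq') * g.dot (n1.K b) m -
        2 * Δ * g.cum nd.K i b))
    {ξ : List ℝ} (hξ : ∀ x ∈ ξ, 0 ≤ x) :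
    0 ≤ g.W n1 ξ - g.W n0 ξ + Δ * g.En nd s cs psL psR ω cr lam ic i ξ := by
  have h1 := g.D_nonneg hL hR hξ
  have h2 := mul_le_mul_of_nonneg_left (hK0 (g.N ξ)) haq
  have h3 := mul_le_mul_of_nonneg_left (g.psd_lin hs hp (g.N ξ) m) hb
  have h4 : ∑ r ∈ range R, (2 * z r * g.dot (V r) (g.N ξ) - z r ^ 2) ≤
      ∑ r ∈ range R, g.dot (V r) (g.N ξ) ^ 2 :=
    sum_le_sum fun r _ => by nlinarith [sq_nonneg (g.dot (V r) (g.N ξ) - z r)]
  have h5 := mul_le_mul_of_nonneg_left h4 haq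
  have e1 : ∑ r ∈ range R, (2 * z r * g.dot (V r) (g.N ξ) - z r ^ 2) =
      2 * g.dot (fun b => ∑ r ∈ range R, z r * V r b) (g.N ξ) - ∑ r ∈ range R, z r ^ 2 := by
    rw [sum_sub_distrib]
    congr 1
    simp only [dot, mul_sum, sum_mul]
    rw [sum_comm]
    exact sum_congr rfl fun b _ => sum_congr rfl fun r _ => by ring
  have e2 : g.Q n1.K m = g.dot m (fun b => g.dot (n1.K b) m) := by
    simp only [Q, dot, mul_sum]
    exact sum_congr rfl fun b _ => sum_congr rfl fun r _ => by ring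
  have e3 : g.D (fun b => n1.pL b - n0.pL b +
      Δ * (g.rL ω i b - (g.a i + lam i) * nd.pL b + lam i * psL b) +
      (2 * aq * ∑ r ∈ range R, z r * V r b + 2 * (γ * aq - aq') * g.dot (n1.K b) m -
        2 * Δ * g.cum nd.K i b)) (fun b => n1.pR b - n0.pR b +
      Δ * (g.rR ω ic i b - (g.a i + lam i) * nd.pR b + lam i * psR b) +
      (2 * aq * ∑ r ∈ range R, z r * V r b + 2 * (γ * aq - aq') * g.dot (n1.K b) m -
        2 * Δ * g.cum nd.K i b)) ξ =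
      g.D n1.pL n1.pR ξ - g.D n0.pL n0.pR ξ + Δ * (g.D (g.rL ω i) (g.rR ω ic i) ξ -
        (g.a i + lam i) * g.D nd.pL nd.pR ξ + lam i * g.D psL psR ξ) +
      (2 * aq * g.dot (fun b => ∑ r ∈ range R, z r * V r b) (g.N ξ) +
        2 * (γ * aq - aq') * g.dot (g.N ξ) (fun b => g.dot (n1.K b) m) -
        2 * Δ * g.dot (g.cum nd.K i) (g.N ξ)) := by
    exact g.D_lin1 n1.pL n0.pL (g.rL ω i) nd.pL psL n1.pR n0.pR (g.rR ω ic i) nd.pR psR
      (fun b => ∑ r ∈ range R, z r * V r b) (fun b => g.dot (n1.K b) m) (g.cum nd.K i) _ _ _ _ _ ξ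
  rw [e1] at h5
  rw [e2] at h3
  rw [e3] at h1
  have h6 := hq (g.N ξ)
  simp only [En, T_eq, W]
  linarith

lemma sum_N {ic : ℕ} (hic : ic ≤ g.G) (ξ : List ℝ) :
    g.D (fun b => if b < ic then 1 else 0) (fun b => if b < ic then 1 else 0) ξ ≤ cl ξ (g.a ic) := by
  have := g.D_le2 (fun b => if b < ic then 1 else 0) (fun b => if b < ic then 1 else 0)
    (fun _ => 0) (fun _ => 0) 1 0 (fun v => if v < g.a ic then (1 : ℝ) else 0) ξ (by
      intro x hx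
      simp only [pt]
      by_cases hb : g.bin x < ic
      · have h1 : x < g.a ic := (g.lt_bin (by omega)).trans_le (g.mono hb hic)
        simp [hb, h1, show g.bin x < g.G by omega]
      · simp only [hb, if_false]
        split_ifs <;> norm_num)
  simpa [cl] using this

lemma cap_alg {nd : Node} {s : ℝ} {ic : ℕ} (hic : ic ≤ g.G) {m : ℕ → ℝ}
    (hs : g.Sym nd.K) (hp : g.Psd nd.K)
    (hc : 0 ≤ 1 + s * g.a ic - nd.c - g.dot m (fun b => g.dot (nd.K b) m))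
    (hL : ∀ b < g.G, 0 ≤ (if b < ic then 1 else 0) + 2 * g.dot (nd.K b) m - nd.pL b)
    (hR : ∀ b < g.G, 0 ≤ (if b < ic then 1 else 0) + 2 * g.dot (nd.K b) m - nd.pR b) :
    g.Cap nd s ic := by
  intro ξ hξ
  have h1 := g.D_nonneg hL hR hξ
  have h2 := g.sum_N hic ξ
  have h3 := g.psd_lin hs hp (g.N ξ) m
  have e2 : g.Q nd.K m = g.dot m (fun b => g.dot (nd.K b) m) := by
    simp only [Q, dot, mul_sum]
    exact sum_congr rfl fun b _ => sum_congr rfl fun r _ => by ring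
  have e3 : g.D (fun b => (if b < ic then 1 else 0) + 2 * g.dot (nd.K b) m - nd.pL b)
      (fun b => (if b < ic then 1 else 0) + 2 * g.dot (nd.K b) m - nd.pR b) ξ =
      g.D (fun b => if b < ic then 1 else 0) (fun b => if b < ic then 1 else 0) ξ +
      2 * g.dot (g.N ξ) (fun b => g.dot (nd.K b) m) - g.D nd.pL nd.pR ξ := by
    exact g.D_lin2 (fun b => if b < ic then 1 else 0) (fun b => g.dot (nd.K b) m) nd.pL nd.pR ξ
  rw [e3] at h1
  rw [e2] at h3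
  simp only [W]
  linarith

lemma tangent_le {n y x : ℝ} {r : ℕ} (hn : 0 < n) (hr : 16 ≤ r) (hy : 0 < y)
    (h1 : x ≤ n) : y ^ 15 * (16 - r / n * x - 15 * y) ≤ (1 - x / n) ^ r := by
  have hx1 : x / n ≤ 1 := (div_le_one hn).2 h1
  have hr' : (1 : ℝ) ≤ r / 16 := by
    rw [le_div_iff₀ (by norm_num)]; exact_mod_cast (by omega)
  have h2 := one_add_mul_self_le_rpow_one_add (s := -(x / n)) (by linarith) hr'
  set w : ℝ := (1 + -(x / n)) ^ ((r : ℝ) / 16) with hw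
  have hw0 : 0 ≤ w := Real.rpow_nonneg (by linarith) _
  have e : (1 - x / n) ^ r = w ^ 16 := by
    rw [hw, ← Real.rpow_natCast, ← Real.rpow_natCast, ← Real.rpow_mul (by linarith)]
    congr 1; ring
  have h3 := one_add_mul_le_pow (a := w / y - 1) (by have := div_nonneg hw0 hy.le; linarith) 16
  have e2 : w ^ 16 = y ^ 16 * (1 + (w / y - 1)) ^ 16 := by
    rw [← mul_pow]; congr 1; field_simp; ring
  have h4 := mul_le_mul_of_nonneg_left h3 (pow_pos hy 16).le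
  rw [e, e2]
  refine le_trans ?_ h4
  have e3 : y ^ 16 * (1 + ((16 : ℕ) : ℝ) * (w / y - 1)) = y ^ 15 * (16 * w - 15 * y) := by
    push_cast; field_simp; ring
  rw [e3]
  refine mul_le_mul_of_nonneg_left ?_ (pow_pos hy 15).le
  have : (r : ℝ) / n * x = 16 * (r / 16 * (x / n)) := by ring
  linarith

lemma ps_alg {s0 s1 : ℝ} {f0 u0 f1 u1 : ℕ → ℝ}
    (h : ∀ b < g.G, (f0 b ≤ 0 ∧ u0 b ≤ 0 ∧ f1 b ≤ 0 ∧ u1 b ≤ 0) ∨ ∃ y : ℝ, 0 < y ∧
      f0 b ≤ y ^ 15 * (16 - s0 * g.a b - 15 * y) ∧ u0 b ≤ y ^ 15 * (16 - s0 * g.a (b + 1) - 15 * y) ∧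
      f1 b ≤ y ^ 15 * (16 - s1 * g.a b - 15 * y) ∧ u1 b ≤ y ^ 15 * (16 - s1 * g.a (b + 1) - 15 * y)) :
    g.PS s0 s1 f0 u0 f1 u1 := by
  intro n r t x hn hr ht0 ht1 hs h0 h1
  have hp : 0 ≤ (1 - x / n) ^ r := pow_nonneg (by have := (div_le_one hn).2 h1; linarith) _
  by_cases hb : g.bin x < g.G
  · simp only [pt, hb, if_true]
    obtain ⟨k0, k1⟩ := g.fr_mem h0 hb
    have e := g.fr_mul hb
    set b := g.bin x
    set v := g.fr x
    have m1 := mul_nonneg (sub_nonneg.2 ht1) (sub_nonneg.2 k1)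
    have m2 := mul_nonneg (sub_nonneg.2 ht1) k0
    have m3 := mul_nonneg ht0 (sub_nonneg.2 k1)
    have m4 := mul_nonneg ht0 k0
    rcases h b hb with ⟨a1, a2, a3, a4⟩ | ⟨y, hy, a1, a2, a3, a4⟩
    · have b1 := mul_le_mul_of_nonneg_left a1 m1
      have b2 := mul_le_mul_of_nonneg_left a2 m2
      have b3 := mul_le_mul_of_nonneg_left a3 m3
      have b4 := mul_le_mul_of_nonneg_left a4 m4
      linarith
    · have b1 := mul_le_mul_of_nonneg_left a1 m1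
      have b2 := mul_le_mul_of_nonneg_left a2 m2
      have b3 := mul_le_mul_of_nonneg_left a3 m3
      have b4 := mul_le_mul_of_nonneg_left a4 m4
      refine le_trans ?_ (tangent_le hn hr hy h1)
      have ex : x = g.a b + v * (g.a (b + 1) - g.a b) := by unfold Grid.h at e; linarith
      rw [hs]
      have : y ^ 15 * (16 - ((1 - t) * s0 + t * s1) * x - 15 * y) =
        (1 - t) * (1 - v) * (y ^ 15 * (16 - s0 * g.a b - 15 * y)) +
        (1 - t) * v * (y ^ 15 * (16 - s0 * g.a (b + 1) - 15 * y)) +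
        t * (1 - v) * (y ^ 15 * (16 - s1 * g.a b - 15 * y)) +
        t * v * (y ^ 15 * (16 - s1 * g.a (b + 1) - 15 * y)) := by rw [ex]; ring
      linarith
  · simp [pt, hb, hp]

end Grid
end
end Pool.Agent.MP_3bf126_pr.H40
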