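import Pool.Agent.MP_3bf126_pr.H40.Cell

/-! The bootstrap in the constant and the passage to stopping times on any probability space. -/

namespace Pool.Agent.MP_3bf126_pr.H40
open MeasureTheory ProbabilityTheory Set
open scoped ENNReal
noncomputable section

def Ev (c : ℝ) : Prop := ∃ r0 : ℕ, ∀ r ≥ r0, ENNReal.ofReal c ≤ Val r []

lemma Ev.mono {c c' : ℝ} (h : Ev c) (hc : c' ≤ c) : Ev c' := by
  obtain ⟨r0, h⟩ := h
  exact ⟨r0, fun r hr => (ENNReal.ofReal_le_ofReal hc).trans (h r hr)⟩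

lemma fill {N : ℕ} {c : ℝ} (hN : 3 ≤ N) (hc : c ≤ 3) (h : ENNReal.ofReal c ≤ Val N []) (k : ℕ) :
    ENNReal.ofReal (c - 9 * k / N) ≤ Val (N + k) [] := by
  have hNR : (3 : ℝ) ≤ N := by exact_mod_cast hN
  induction k with
  | zero => simpa using h
  | succ k ih =>
    obtain ⟨r, hr⟩ : ∃ r, N + k = r + 1 := ⟨N + k - 1, by omega⟩
    rw [← add_assoc, hr]
    rw [hr] at ih
    have hr' : (N : ℝ) ≤ r + 1 := by exact_mod_cast (show N ≤ r + 1 by omega)
    have hk : (0 : ℝ) ≤ 9 * k / N := by positivity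
    have e : c - 9 * ((k + 1 : ℕ) : ℝ) / N = c - 9 * k / N - 9 / N := by push_cast; ring
    have h9 : (0 : ℝ) ≤ 9 / N := by positivity
    rcases le_total (c - 9 * k / N) 0 with h0 | h0
    · rw [ENNReal.ofReal_of_nonpos (by linarith)]; exact zero_le
    · refine le_trans (ENNReal.ofReal_le_ofReal ?_) (fill_one r h0 (by linarith) ih)
      have : (c - 9 * k / N) ^ 2 / (r + 1) ≤ 9 / N := by
        gcongr
        nlinarith
      linarith

lemma ev_step {g : Grid} {cs c η : ℝ} {nd : Node} {DT : ℕ} (hDT : 0 < DT) (hB : g.Bound DT DT cs nd)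
    (h3 : nd.c ≤ 3) (hc : c ≤ cs) (hη : 0 < η) (h : Ev c) : Ev (c + (nd.c - cs) - η) := by
  obtain ⟨r0, h⟩ := h
  obtain ⟨q0, hq⟩ := hB c hc r0 h
  obtain ⟨q1, hq1⟩ := exists_nat_gt (9 / η)
  refine ⟨DT * max (max q0 q1) 3, fun r hr => ?_⟩
  have h1 : max (max q0 q1) 3 ≤ r / DT := (Nat.le_div_iff_mul_le hDT).2 (by rwa [mul_comm])
  set q := r / DT with hqd
  have h2 := hq q (by omega) [] (by simp)
  have e : g.W nd [] = nd.c := by simp [Grid.W, Grid.D_nil, Grid.Q, Grid.N, Grid.aL, Grid.aR]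
  rw [e] at h2
  have h4 := fill (N := DT * q) ((show 3 ≤ q by omega).trans (Nat.le_mul_of_pos_left q hDT))
    (by linarith) h2 (r % DT)
  rw [hqd, Nat.div_add_mod] at h4
  refine le_trans (ENNReal.ofReal_le_ofReal ?_) h4
  have hqR : (q1 : ℝ) ≤ q := by exact_mod_cast (show q1 ≤ q by omega)
  have hq0 : (0 : ℝ) < q := by exact_mod_cast (show 0 < q by omega)
  have hD : (0 : ℝ) < DT := by positivity
  have h5 : ((r % DT : ℕ) : ℝ) ≤ DT := by exact_mod_cast (Nat.mod_lt r hDT).le
  have h6 : 9 * ((r % DT : ℕ) : ℝ) / (DT * (r / DT) : ℕ) ≤ η := by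
    rw [← hqd]
    push_cast
    rw [div_le_iff₀ (by positivity)]
    rw [div_lt_iff₀ hη] at hq1
    have : q1 * η ≤ q * η := by gcongr
    nlinarith
  linarith

theorem boot {g : Grid} {cs b : ℝ} {nd : Node} {DT : ℕ} (hDT : 0 < DT) (hB : g.Bound DT DT cs nd)
    (h3 : nd.c ≤ 3) (hδ : cs < nd.c) (hb : b < nd.c) : Ev b := by
  have key : ∀ k : ℕ, Ev (min cs (1 + k * ((nd.c - cs) / 2))) := by
    intro k
    induction k with
    | zero => exact Ev.mono (c := 1) ⟨0, fun r _ => by simpa using one_le_Val r []⟩ (by simp)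
    | succ k ih =>
      refine (ev_step hDT hB h3 (min_le_left _ _) (show 0 < (nd.c - cs) / 2 by linarith) ih).mono ?_
      push_cast
      rcases le_total cs (1 + k * ((nd.c - cs) / 2)) with h | h
      · rw [min_eq_left h]; exact (min_le_left _ _).trans (by linarith)
      · rw [min_eq_right h]; exact (min_le_right _ _).trans (by linarith)
  obtain ⟨k, hk⟩ := exists_nat_gt (cs / ((nd.c - cs) / 2))
  rw [div_lt_iff₀ (by linarith)] at hk
  have h1 := key k
  rw [min_eq_left (by linarith)] at h1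
  exact (ev_step hDT hB h3 le_rfl (show 0 < nd.c - b by linarith) h1).mono (by linarith)

lemma exists_rule {n : ℕ} {Ω : Type*} [MeasurableSpace Ω] (s : Fin n → Ω → ℝ)
    (hs : ∀ i, StronglyMeasurable (s i)) (τ : Ω → Fin n) (hn : 0 < n)
    (hτ : IsStoppingTime (Filtration.natural s hs) fun ω => (τ ω : WithTop (Fin n))) :
    ∃ T : Rule n, ∀ ω, T.τ (fun i => s i ω) = τ ω := by
  classical
  obtain ⟨m, rfl⟩ : ∃ m, n = m + 1 := ⟨n - 1, by omega⟩
  have h1 : ∀ k : Fin (m + 1), ∃ B : Set (Iic k → ℝ), MeasurableSet B ∧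
      (fun ω (j : Iic k) => s j ω) ⁻¹' B = {ω | (τ ω : WithTop (Fin (m + 1))) ≤ k} := fun k => by
    have := hτ k
    rwa [Filtration.natural_eq_comap] at this
  choose B hB hB' using h1
  set C : Fin (m + 1) → (Fin (m + 1) → ℝ) → Prop :=
    fun k x => (fun j : Iic k => x j) ∈ B k ∨ k = Fin.last m with hC
  have hne : ∀ x, (Finset.univ.filter fun k => C k x).Nonempty :=
    fun x => ⟨Fin.last m, by simp [hC]⟩
  set t : (Fin (m + 1) → ℝ) → Fin (m + 1) := fun x => (Finset.univ.filter fun k => C k x).min' (hne x)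
  have ht : ∀ x k, t x = k ↔ C k x ∧ ∀ j < k, ¬ C j x := fun x k => by
    constructor
    · rintro rfl
      refine ⟨(Finset.mem_filter.1 (Finset.min'_mem _ (hne x))).2, fun j hj hj' => ?_⟩
      exact absurd (Finset.min'_le _ j (by simpa using hj')) (not_le.2 hj)
    · rintro ⟨h1, h2⟩
      refine le_antisymm (Finset.min'_le _ k (by simpa using h1)) (not_lt.1 fun h => ?_)
      exact h2 _ h (Finset.mem_filter.1 (Finset.min'_mem _ (hne x))).2
  have hCm : ∀ k, Measurable (C k) := fun k =>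
    Measurable.or (measurable_mem.2 (hB k) |>.comp
      (measurable_pi_lambda _ fun j => measurable_pi_apply _)) measurable_const
  refine ⟨⟨t, measurable_to_countable' fun k => ?_, fun x x' h => ?_⟩, fun ω => ?_⟩
  · have : t ⁻¹' {k} = {x | C k x ∧ ∀ j, j < k → ¬ C j x} := by ext x; simp [ht]
    rw [this]
    exact measurableSet_setOfPred.2 ((hCm k).and (Measurable.forall fun j =>
      Measurable.imp measurable_const (hCm j).not))
  · have e : ∀ j ≤ t x, C j x' ↔ C j x := fun j hj => by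
      have : (fun i : Iic j => x' i) = fun i : Iic j => x i :=
        funext fun i => (h i (le_trans i.2 hj)).symm
      simp only [hC, this]
    obtain ⟨h1, h2⟩ := (ht x _).1 rfl
    exact (ht x' _).2 ⟨(e _ le_rfl).2 h1, fun j hj h3 => h2 j hj ((e j hj.le).1 h3)⟩
  · have e : ∀ k, (fun j : Iic k => s j ω) ∈ B k ↔ τ ω ≤ k := fun k => by
      have := Set.ext_iff.1 (hB' k) ω
      simpa using this
    refine (ht (fun i => s i ω) (τ ω)).2 ⟨Or.inl ((e _).2 le_rfl), fun j hj h => ?_⟩
    rcases h with h | h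
    · exact absurd ((e j).1 h) (not_le.2 hj)
    · exact absurd (h ▸ hj) (not_lt.2 (Fin.le_last _))

theorem transfer {n : ℕ} (hn : 0 < n) {c : ℝ} (h : ENNReal.ofReal c ≤ Val n []) {Ω : Type*}
    [MeasurableSpace Ω] (P : Measure Ω) [IsProbabilityMeasure P] (s : Fin n → Ω → ℝ)
    (hs : ∀ i, StronglyMeasurable (s i)) (hi : iIndepFun s P)
    (hU : ∀ i, P.map (s i) = volume.restrict (Icc 0 1)) (τ : Ω → Fin n)
    (hτ : IsStoppingTime (Filtration.natural s hs) fun ω => (τ ω : WithTop (Fin n))) :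
    c ≤ ∫ ω, (1 + ((Finset.univ.filter fun j => s (τ ω) ω < s j ω).card : ℝ)) ∂P := by
  obtain ⟨T, hT⟩ := exists_rule s hs τ hn hτ
  have hX : Measurable fun ω i => s i ω := measurable_pi_lambda _ fun i => (hs i).measurable
  have hP : P.map (fun ω i => s i ω) = Pn n := by
    rw [hi.map_fun_eq_pi_map fun i => (hs i).measurable.aemeasurable]
    simp only [hU]; rfl
  have e : ∀ ω, loss [] T (fun i => s i ω) =
      ENNReal.ofReal (1 + ((Finset.univ.filter fun j => s (τ ω) ω < s j ω).card : ℝ)) := fun ω => by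
    simp only [loss, hT, cnt, List.map_nil, List.sum_nil, add_zero, ind]
    rw [ENNReal.ofReal_add zero_le_one (by positivity), ENNReal.ofReal_one, ENNReal.ofReal_natCast,
      Finset.card_filter]
    push_cast
    rfl
  have hm : Measurable fun ω => loss [] T (fun i => s i ω) := (meas_loss [] T).comp hX
  have h1 : Val n [] ≤ ∫⁻ ω, loss [] T (fun i => s i ω) ∂P := by
    rw [← lintegral_map (meas_loss [] T) hX, hP]
    exact iInf_le _ T
  have h2 : ∫⁻ ω, loss [] T (fun i => s i ω) ∂P ≤ ENNReal.ofReal (1 + n) := by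
    calc _ ≤ ∫⁻ _ω, ENNReal.ofReal (1 + n) ∂P := lintegral_mono fun ω => by
          rw [e]
          apply ENNReal.ofReal_le_ofReal
          have := Finset.card_filter_le Finset.univ fun j => s (τ ω) ω < s j ω
          rw [Finset.card_univ, Fintype.card_fin] at this
          exact add_le_add le_rfl (by exact_mod_cast this)
      _ = _ := by simp
  have h3 := integral_toReal (μ := P) hm.aemeasurable
    (Filter.Eventually.of_forall fun ω => by rw [e]; exact ENNReal.ofReal_lt_top)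
  have h4 : ∀ ω, (loss [] T (fun i => s i ω)).toReal =
      1 + ((Finset.univ.filter fun j => s (τ ω) ω < s j ω).card : ℝ) := fun ω => by
    rw [e, ENNReal.toReal_ofReal (by positivity)]
  simp only [h4] at h3
  rw [h3]
  exact (ENNReal.ofReal_le_iff_le_toReal (ne_top_of_le_ne_top ENNReal.ofReal_ne_top h2)).1 (h.trans h1)

end
end Pool.Agent.MP_3bf126_pr.H40
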