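import Pool.Agent.MP_3bf126_pr.H40.Real

/-! The time-cell induction and the algebraic form of the node inequalities. -/

namespace Pool.Agent.MP_3bf126_pr.H40
open MeasureTheory Finset
open scoped ENNReal
noncomputable section
namespace Grid
variable (g : Grid)

def Cap (nd : Node) (s : ℝ) (ic : ℕ) : Prop :=
  ∀ ξ : List ℝ, (∀ x ∈ ξ, 0 ≤ x) → g.W nd ξ ≤ 1 + s * g.a ic + cl ξ (g.a ic)

def Bound (DT S : ℕ) (cs : ℝ) (nd : Node) : Prop :=
  ∀ c ≤ cs, ∀ r0 : ℕ, (∀ r ≥ r0, ENNReal.ofReal c ≤ Val r []) → ∃ q0 : ℕ, ∀ q ≥ q0, ∀ ξ : List ℝ,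
    (∀ x ∈ ξ, 0 ≤ x ∧ x ≤ (DT * q : ℕ)) →
      ENNReal.ofReal (g.W nd ξ - (cs - c)) ≤ Vx (DT * q : ℕ) (S * q) ξ

/-- the comparison weights lie below `(1 - x/n)^r` -/
def PS (s0 s1 : ℝ) (f0 u0 f1 u1 : ℕ → ℝ) : Prop :=
  ∀ (n : ℝ) (r : ℕ) (t x : ℝ), 0 < n → 16 ≤ r → 0 ≤ t → t ≤ 1 → r / n = (1 - t) * s0 + t * s1 →
    0 ≤ x → x ≤ n → (1 - t) * g.pt f0 u0 x + t * g.pt f1 u1 x ≤ (1 - x / n) ^ r

lemma Ws_le {n : ℝ} (hn : 0 < n) {r : ℕ} {c y : ℝ} (hc : ENNReal.ofReal c ≤ Val r []) {ξ : List ℝ}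
    (hξ : ∀ x ∈ ξ, 0 ≤ x ∧ x ≤ n) (hy : y ≤ (ξ.map fun x => (1 - x / n) ^ r).sum) :
    ENNReal.ofReal (c + y) ≤ Vx n r ξ := by
  have h := Val_list r (ξ.map fun x => 1 - x / n) (by
    intro v hv
    obtain ⟨x, hx, rfl⟩ := List.mem_map.1 hv
    have h1 := div_nonneg (hξ x hx).1 hn.le
    have h2 := (div_le_one hn).2 (hξ x hx).2
    constructor <;> linarith)
  rw [List.map_map] at h
  refine le_trans (ENNReal.ofReal_add_le.trans ?_) h
  exact add_le_add hc (ENNReal.ofReal_le_ofReal hy)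

lemma Vx_cons {n : ℝ} (hn : 0 < n) (r : ℕ) (ξ : List ℝ) {x : ℝ} (h0 : 0 ≤ x) (h1 : x ≤ n) :
    Vx n r ξ ≤ Vx n r (x :: ξ) := by
  have h2 := div_nonneg h0 hn.le
  have h3 := (div_le_one hn).2 h1
  exact le_trans le_self_add (Val_cons r _ (v := 1 - x / n) (by linarith) (by linarith))

lemma cl_cons_le {x y : ℝ} (h : y ≤ x) (ξ : List ℝ) : cl (x :: ξ) y ≤ cl ξ x := by
  have := cl_mono ξ h
  simpa [cl, not_lt.2 h] using this

lemma bound_terminal {DT S : ℕ} (hDT : 0 < DT) (hS : 0 < S) {cs : ℝ} {nd : Node}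
    (hc : nd.c ≤ cs) (hK : ∀ N, g.Q nd.K N = 0) {u0 f0 : ℕ → ℝ}
    (hps : g.PS ((S : ℝ) / DT) ((S : ℝ) / DT) nd.pL nd.pR u0 f0) : g.Bound DT S cs nd := by
  intro c hcs r0 hr0
  refine ⟨max r0 16, fun q hq ξ hξ => ?_⟩
  have hq1 : max r0 16 ≤ S * q := hq.trans (Nat.le_mul_of_pos_left q hS)
  have hq0 : 0 < q := by omega
  have hn : (0 : ℝ) < (DT * q : ℕ) := by positivity
  have h1 := g.D_le2 nd.pL nd.pR u0 f0 (1 - 0) 0 (fun x => (1 - x / (DT * q : ℕ)) ^ (S * q)) ξ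
    fun x hx => hps _ _ 0 x hn (by omega) le_rfl zero_le_one (by
      have : (q : ℝ) ≠ 0 := by positivity
      push_cast; field_simp; ring) (hξ x hx).1 (hξ x hx).2
  refine le_trans (ENNReal.ofReal_le_ofReal ?_) (Ws_le hn (hr0 _ (by omega)) hξ h1)
  simp only [W, hK]; linarith

theorem bound_cell {DT S0 S1 : ℕ} (hDT : 0 < DT) (hS1 : 0 < S1) (hS : S1 < S0) {cs : ℝ}
    {n0 n1 : Node} (hK0 : g.Sym n0.K) (hK1 : g.Sym n1.K) {ic0 ic : ℕ} (hic0 : ic0 ≤ ic)
    (hic : ic ≤ g.G) (hic1 : 0 < ic) (hc0 : g.Cap n0 ((S0 : ℝ) / DT) ic0)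
    (hc1 : g.Cap n1 ((S1 : ℝ) / DT) ic) {f0 u0 f1 u1 ω cr0 cr1 lam : ℕ → ℝ}
    (hps : g.PS ((S0 : ℝ) / DT) ((S1 : ℝ) / DT) f0 u0 f1 u1)
    (hcs : cs ≤ 1 + (S1 : ℝ) / DT * g.a g.G) (hω : ∀ b, 0 ≤ ω b ∧ ω b ≤ 1)
    (hlam : ∀ i ≤ ic, 0 ≤ lam i)
    (hcr0 : g.CrOK n0 ((S0 : ℝ) / DT) cr0 ic) (hcr1 : g.CrOK n1 ((S1 : ℝ) / DT) cr1 ic)
    (hE0 : ∀ i ≤ ic, ∀ ξ : List ℝ, (∀ x ∈ ξ, 0 ≤ x) → 0 ≤ g.W n1 ξ - g.W n0 ξ +
      ((S0 : ℝ) - S1) / DT * g.En n0 ((S0 : ℝ) / DT) cs f0 u0 ω cr0 lam ic i ξ)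
    (hE1 : ∀ i ≤ ic, ∀ ξ : List ℝ, (∀ x ∈ ξ, 0 ≤ x) → 0 ≤ g.W n1 ξ - g.W n0 ξ +
      ((S0 : ℝ) - S1) / DT * g.En n1 ((S1 : ℝ) / DT) cs f1 u1 ω cr1 lam ic i ξ)
    (hB : g.Bound DT S1 cs n1) : g.Bound DT S0 cs n0 := by
  intro c hcs' r0 hr0
  obtain ⟨q1, hq1⟩ := hB c hcs' r0 hr0
  obtain ⟨q2, hq2⟩ := exists_nat_gt (g.a g.G + ∑ i ∈ range (ic + 1), lam i)
  have hL0 : 0 ≤ ∑ i ∈ range (ic + 1), lam i :=
    sum_nonneg fun i hi => hlam i (by have := mem_range.1 hi; omega)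
  refine ⟨max (max q1 q2) (max r0 16), fun q hq => ?_⟩
  have hq0 : 0 < q := by omega
  have hqR : (0 : ℝ) < q := by positivity
  have hDR : (0 : ℝ) < DT := by positivity
  have hn : (0 : ℝ) < (DT * q : ℕ) := by positivity
  have hqn : (q2 : ℝ) ≤ (DT * q : ℕ) := by
    exact_mod_cast (show q2 ≤ q by omega).trans (Nat.le_mul_of_pos_left q hDT)
  set n : ℝ := ((DT * q : ℕ) : ℝ) with hn'
  obtain ⟨D, rfl⟩ : ∃ D, S0 = S1 + D := ⟨S0 - S1, by omega⟩
  have hD : 0 < D := by omega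
  have hDr : (0 : ℝ) < D := by positivity
  have hq3 : max r0 16 ≤ S1 * q := (show max r0 16 ≤ q by omega).trans (Nat.le_mul_of_pos_left q hS1)
  have key : ∀ k : ℕ, k ≤ D * q → ∀ ξ : List ℝ, (∀ x ∈ ξ, 0 ≤ x ∧ x ≤ n) →
      ENNReal.ofReal ((k / (D * q) : ℝ) * g.W n0 ξ + (1 - k / (D * q)) * g.W n1 ξ - (cs - c)) ≤
        Vx n (S1 * q + k) ξ := by
    intro k
    induction k with
    | zero =>
      intro _ ξ hξ
      have := hq1 q (by omega) ξ hξ
      refine le_trans (le_of_eq ?_) this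
      simp
    | succ k ih =>
      intro hk ξ hξ
      obtain ⟨r, hr⟩ : ∃ r, S1 * q + k = r + 1 := ⟨S1 * q + k - 1, by omega⟩
      have ih' := ih (by omega)
      rw [hr] at ih'
      rw [← add_assoc, hr]
      set t : ℝ := 1 - k / (D * q) with ht
      have hkR : (k : ℝ) ≤ D * q := by exact_mod_cast (show k ≤ D * q by omega)
      have ht1 : t ≤ 1 := by
        have : (0 : ℝ) ≤ k / (D * q) := by positivity
        linarith
      have ht0 : 0 ≤ t := by
        have : (k : ℝ) / (D * q) ≤ 1 := (div_le_one (by positivity)).2 hkR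
        linarith
      have et : (k : ℝ) / (D * q) = 1 - t := by rw [ht]; ring
      rw [et] at ih'
      have hs : ((r + 1 : ℕ) : ℝ) / n = (1 - t) * (((S1 + D : ℕ) : ℝ) / DT) + t * ((S1 : ℝ) / DT) := by
        rw [← hr, ht, hn']; push_cast; field_simp; ring
      have hξ0 : ∀ x ∈ ξ, 0 ≤ x := fun x hx => (hξ x hx).1
      have hs1 : (S1 : ℝ) / DT ≤ ((r + 1 : ℕ) : ℝ) / n := by
        have : (S1 : ℝ) / DT ≤ ((S1 + D : ℕ) : ℝ) / DT := by gcongr
        have m := mul_le_mul_of_nonneg_left this (sub_nonneg.2 ht1)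
        rw [hs]; linarith
      have hs10 : 0 ≤ (S1 : ℝ) / DT := by positivity
      have hpt : ∀ x ∈ ξ, (1 - t) * g.pt f0 u0 x + t * g.pt f1 u1 x ≤ (1 - x / n) ^ (r + 1) :=
        fun x hx => hps n (r + 1) t x hn (by omega) ht0 ht1 hs (hξ x hx).1 (hξ x hx).2
      refine stepW (X := g.a g.G) (θc := g.a ic) (by linarith) (g.nonneg hic) (g.mono hic le_rfl) r ξ hξ0
        (fun x => (1 - t) * g.W n0 (x :: ξ) + t * g.W n1 (x :: ξ) - (cs - c))
        ((1 - t) * g.W n0 ξ + t * g.W n1 ξ - (cs - c))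
        (c + ((1 - t) * g.D f0 u0 ξ + t * g.D f1 u1 ξ)) _ ?_ ?_ ?_ ?_ ?_ ?_
      · intro x h0 h1
        exact ih' (x :: ξ) (by
          intro y hy
          rcases List.mem_cons.1 hy with rfl | hy
          exacts [⟨h0, h1⟩, hξ y hy])
      · intro x h0 h1
        exact (Ws_le hn (hr0 _ (by omega)) hξ (g.D_le2 _ _ _ _ _ _ _ ξ hpt)).trans
          (Vx_cons hn _ ξ h0 h1)
      · intro x hx
        simp only [g.W_far hK0 hx, g.W_far hK1 hx]
      · intro x hx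
        have hx0 : 0 ≤ x := (g.nonneg hic).trans hx
        have hxξ : ∀ y ∈ x :: ξ, 0 ≤ y := by
          intro y hy
          rcases List.mem_cons.1 hy with rfl | hy
          exacts [hx0, hξ0 y hy]
        have b0 := hc0 _ hxξ
        have b1 := hc1 _ hxξ
        have hx' : g.a ic0 ≤ x := (g.mono hic0 hic).trans hx
        have b2 := cl_cons_le hx' ξ
        have b3 := cl_cons_le hx ξ
        have b4 : ((S1 + D : ℕ) : ℝ) / DT * g.a ic0 ≤ ((S1 + D : ℕ) : ℝ) / DT * x := by gcongr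
        have b5 : (S1 : ℝ) / DT * g.a ic ≤ (S1 : ℝ) / DT * x := by gcongr
        simp only [acc, hs]
        have b6 : (1 - t) * g.W n0 (x :: ξ) ≤ (1 - t) * (1 + ((S1 + D : ℕ) : ℝ) / DT * x + cl ξ x) :=
          mul_le_mul_of_nonneg_left (by linarith) (by linarith)
        have b7 : t * g.W n1 (x :: ξ) ≤ t * (1 + (S1 : ℝ) / DT * x + cl ξ x) :=
          mul_le_mul_of_nonneg_left (by linarith) ht0
        linarith
      · intro x hx
        have b1 := g.D_le2 f0 u0 f1 u1 (1 - t) t (fun v => if v < x then (1 : ℝ) else 0) ξ (by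
          intro v hv
          by_cases hb : g.bin v < g.G
          · have h1 : v < x := (g.lt_bin hb).trans_le ((g.mono hb le_rfl).trans hx)
            simp only [h1, if_true]
            refine (hpt v hv).trans (pow_le_one₀ ?_ ?_)
            · have := (div_le_one hn).2 (hξ v hv).2; linarith
            · have := div_nonneg (hξ v hv).1 hn.le; linarith
          · simp only [pt, hb, if_false]
            split_ifs <;> norm_num)
        have b2 : (S1 : ℝ) / DT * g.a g.G ≤ ((r + 1 : ℕ) : ℝ) / n * x :=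
          mul_le_mul hs1 hx (g.nonneg le_rfl) (hs10.trans hs1)
        simp only [acc, cl]
        linarith
      · intro θ h0 h1
        obtain ⟨i, hi, h2, h3⟩ := g.exists_cell hic1 hic h0 h1
        have hp := g.h_pos (show i < g.G by omega)
        set v := (θ - g.a i) / g.h i
        have hv0 : 0 ≤ v := div_nonneg (by linarith) hp.le
        have hv1 : v ≤ 1 := (div_le_one hp).2 (by unfold h; linarith)
        have hθ : θ = (1 - v) * g.a i + v * g.a (i + 1) := by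
          have : v * g.h i = θ - g.a i := div_mul_cancel₀ _ hp.ne'
          unfold h at this; linarith
        obtain ⟨I0, hI0, e0⟩ := g.interp hK0 _ cs f0 u0 ω cr0 lam hω hi hic hcr0 hv0 hv1 hξ0 θ hθ
        obtain ⟨I1, hI1, e1⟩ := g.interp hK1 _ cs f1 u1 ω cr1 lam hω hi hic hcr1 hv0 hv1 hξ0 θ hθ
        have l1 := hlam i hi.le
        have l2 := hlam (i + 1) hi
        have l3 : lam i ≤ ∑ i ∈ range (ic + 1), lam i :=
          single_le_sum (fun i hi => hlam i (by have := mem_range.1 hi; omega)) (mem_range.2 (by omega))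
        have l4 : lam (i + 1) ≤ ∑ i ∈ range (ic + 1), lam i :=
          single_le_sum (fun i hi => hlam i (by have := mem_range.1 hi; omega)) (mem_range.2 (by omega))
        refine ⟨_, (1 - v) * lam i + v * lam (i + 1),
          ((hI0.smul (1 - t)).add (hI1.smul t)).add (hasI_const (-(cs - c)) θ (g.a g.G)),
          add_nonneg (mul_nonneg (sub_nonneg.2 hv1) l1) (mul_nonneg hv0 l2), by
            have m1 := mul_le_mul_of_nonneg_left l3 (sub_nonneg.2 hv1)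
            have m2 := mul_le_mul_of_nonneg_left l4 hv0
            linarith, ?_⟩
        have a0 := hE0 i hi.le ξ hξ0
        have a1 := hE0 (i + 1) hi ξ hξ0
        have a2 := hE1 i hi.le ξ hξ0
        have a3 := hE1 (i + 1) hi ξ hξ0
        have eD : (((S1 + D : ℕ) : ℝ) - S1) / DT = D / DT := by push_cast; ring
        rw [eD] at a0 a1 a2 a3
        have conv : ∀ y z : ℝ, 0 ≤ y + D / DT * z → 0 ≤ DT / D * y + z := fun y z hyz => by
          have := mul_nonneg (show (0 : ℝ) ≤ DT / D by positivity) hyz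
          have e : (DT : ℝ) / D * (y + D / DT * z) = DT / D * y + z := by field_simp
          linarith
        have c0 := conv _ _ a0
        have c1 := conv _ _ a1
        have c2 := conv _ _ a2
        have c3 := conv _ _ a3
        have d0 : 0 ≤ DT / D * (g.W n1 ξ - g.W n0 ξ) + (θ + ((S1 + D : ℕ) : ℝ) / DT * θ ^ 2 / 2 +
            pos ξ θ + I0 - g.a g.G * g.W n0 ξ -
            ((1 - v) * lam i + v * lam (i + 1)) * (g.W n0 ξ - (cs + g.D f0 u0 ξ))) := by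
          have := add_nonneg (mul_nonneg (sub_nonneg.2 hv1) c0) (mul_nonneg hv0 c1)
          linarith
        have d1 : 0 ≤ DT / D * (g.W n1 ξ - g.W n0 ξ) + (θ + (S1 : ℝ) / DT * θ ^ 2 / 2 +
            pos ξ θ + I1 - g.a g.G * g.W n1 ξ -
            ((1 - v) * lam i + v * lam (i + 1)) * (g.W n1 ξ - (cs + g.D f1 u1 ξ))) := by
          have := add_nonneg (mul_nonneg (sub_nonneg.2 hv1) c2) (mul_nonneg hv0 c3)
          linarith
        have d2 := add_nonneg (mul_nonneg (sub_nonneg.2 ht1) d0) (mul_nonneg ht0 d1)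
        have d3 : 0 ≤ θ * (cs - c) := mul_nonneg h0 (by linarith)
        have e4 : ((k + 1 : ℕ) : ℝ) / (D * q) = 1 - t + 1 / (D * q) := by
          rw [ht]; push_cast; ring
        have e5 : n * (1 / (D * q)) = DT / D := by rw [hn']; push_cast; field_simp
        rw [e4, hs]
        have e6 : n * ((1 - t + 1 / (D * q)) * g.W n0 ξ + (1 - (1 - t + 1 / (D * q))) * g.W n1 ξ - (cs - c)) =
            n * ((1 - t) * g.W n0 ξ + t * g.W n1 ξ - (cs - c)) -
              n * (1 / (D * q)) * (g.W n1 ξ - g.W n0 ξ) := by ring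
        rw [e6, e5]
        linarith [d2, d3]
  intro ξ hξ
  have := key (D * q) le_rfl ξ hξ
  have e : ((D * q : ℕ) : ℝ) / (D * q) = 1 := by push_cast; field_simp
  rw [e, ← add_mul] at this
  simpa using this

end Grid
end
end Pool.Agent.MP_3bf126_pr.H40
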