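import Pool.Agent.MP_3bf126_pr.H40.Sound

/-! Soundness of cells, blocks and the terminal node. -/

namespace Pool.Agent.MP_3bf126_pr.H40
open Finset
noncomputable section
variable {g : Grid} {A : List ℤ}

lemma rep_Vp (G : ℕ) (Vs : List (List ℤ)) : ∀ r < (Vs.map (pk G)).length,
    Rep G ((Vs.map (pk G)).getD r PV.zero) fun k => (Vs.getD r []).getD k 0 := by
  intro r hr
  have hr' : r < Vs.length := by simpa using hr
  rw [List.getD_eq_getElem _ _ hr, List.getD_eq_getElem _ _ hr', List.getElem_map]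
  exact rep_pk G _

lemma rows_ok {n1 n0 : INode} (hk : KOK g n1) {gam : ℕ} {Vs : List (List ℤ)}
    (hK : n0.K = rows (cxOf g.G A) (Int.ofNat gam) (Vs.map (pk g.G)) g.G 0 n1.K Vs)
    (h1 : n1.K.all (fun v => (PV.smul (Int.ofNat gam) v).small) = true) (h0 : n0.K.all PV.small = true) :
    KOK g n0 ∧ ∀ N, (gam : ℝ) / 2 ^ 16 * g.Q (rn g.G n1).K N + ∑ r ∈ range (Vs.map (pk g.G)).length,
      g.dot (fun k => (((Vs.getD r []).getD k 0 : ℤ) : ℝ) / 2 ^ 30) N ^ 2 ≤ g.Q (rn g.G n0).K N := by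
  have hl : n0.K.length = g.G := by rw [hK, rows_length]
  have hrep : ∀ b < g.G, Rep g.G (n0.K.getD b PV.zero) fun k => gam * kv g.G n1.K b k / 65536 +
      ∑ r ∈ range (Vs.map (pk g.G)).length, (Vs.getD r []).getD b 0 * (Vs.getD r []).getD k 0 +
      if k = b then (g.G : ℤ) else 0 := by
    intro b hb
    rw [hK, rows_getD _ _ _ hb, zero_add]
    refine (((((hk.rep b hb).smul (Int.ofNat gam)).fl (all_getD h1 (hk.len ▸ hb) PV.zero)).add
      (rep_comb _ _ _ (rep_Vp g.G Vs))).add (rep_single hb _)).congr fun k _ => ?_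
    congr 2
    refine sum_congr rfl fun r hr => ?_
    have hr' : r < Vs.length := by simpa using hr
    congr 1
    rw [List.getD_eq_getElem _ _ (by simpa using hr'), List.getD_eq_getElem Vs _ hr', List.getElem_map]
  have hkv : ∀ b < g.G, ∀ k < g.G, kv g.G n0.K b k = gam * kv g.G n1.K b k / 65536 +
      ∑ r ∈ range (Vs.map (pk g.G)).length, (Vs.getD r []).getD b 0 * (Vs.getD r []).getD k 0 +
      if k = b then (g.G : ℤ) else 0 := fun b hb k hk' =>
    (hrep b hb).get (all_getD h0 (hl ▸ hb) PV.zero) hk'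
  have hsI : ∀ b < g.G, ∀ k < g.G, kv g.G n1.K b k = kv g.G n1.K k b := fun b hb k hk' => by
    have := hk.sym b hb k hk'
    simp only [rn] at this
    exact_mod_cast (div_left_inj' (by positivity)).1 this
  have hupd : ∀ N, (gam : ℝ) / 2 ^ 16 * g.Q (rn g.G n1).K N + ∑ r ∈ range (Vs.map (pk g.G)).length,
      g.dot (fun k => (((Vs.getD r []).getD k 0 : ℤ) : ℝ) / 2 ^ 30) N ^ 2 ≤ g.Q (rn g.G n0).K N := by
    refine g.Q_update (ε := 1 / 2 ^ 60) (e := fun b k =>
      (((gam * kv g.G n1.K b k / 65536 : ℤ) : ℝ) - gam * kv g.G n1.K b k / 65536) / 2 ^ 60) ?_ ?_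
    · intro b hb k hk'
      simp only [rn]
      rw [hkv b hb k hk']
      have e : ∑ r ∈ range (Vs.map (pk g.G)).length, (((Vs.getD r []).getD b 0 : ℤ) : ℝ) / 2 ^ 30 *
          ((((Vs.getD r []).getD k 0 : ℤ) : ℝ) / 2 ^ 30) = (∑ r ∈ range (Vs.map (pk g.G)).length,
          (((Vs.getD r []).getD b 0 : ℤ) : ℝ) * (((Vs.getD r []).getD k 0 : ℤ) : ℝ)) / 2 ^ 60 := by
        rw [sum_div]; exact sum_congr rfl fun r _ => by ring
      rw [e]
      generalize (gam * kv g.G n1.K b k / 65536 : ℤ) = y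
      push_cast
      split_ifs <;> ring
    · intro b _ k _
      have a1 := Int.ediv_mul_le (gam * kv g.G n1.K b k) (show (65536 : ℤ) ≠ 0 by norm_num)
      have a2 := Int.lt_ediv_add_one_mul_self (gam * kv g.G n1.K b k) (show (0 : ℤ) < 65536 by norm_num)
      generalize (gam * kv g.G n1.K b k / 65536 : ℤ) = y at *
      have b1 : (y : ℝ) * 65536 ≤ gam * kv g.G n1.K b k := by exact_mod_cast a1
      have b2 : (gam : ℝ) * kv g.G n1.K b k < (y + 1) * 65536 := by exact_mod_cast a2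
      rw [abs_div, abs_of_pos (show (0 : ℝ) < 2 ^ 60 by positivity)]
      gcongr
      rw [abs_le]
      constructor <;> linarith
  refine ⟨⟨hl, fun b hb => (hrep b hb).congr fun k hk' => (hkv b hb k hk').symm, ?_, fun N => ?_⟩, hupd⟩
  · intro b hb k hk'
    simp only [rn]
    rw [hkv b hb k hk', hkv k hk' b hb, hsI b hb k hk']
    simp only [mul_comm ((Vs.getD _ []).getD b 0), @eq_comm _ b k]
  · refine le_trans (add_nonneg (mul_nonneg (by positivity) (hk.psd N)) ?_) (hupd N)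
    exact sum_nonneg fun _ _ => sq_nonneg _

lemma cell_sound (hA : GOK g A) {cs : ℤ} {n1 n0 : INode} {c : ICell} (h1 : Good g (cs / 2 ^ 44) n1)
    (hS : 0 < n0.S)
    (hK : n0.K = rows (cxOf g.G A) (Int.ofNat c.gam) (c.Vs.map (pk g.G)) g.G 0 n1.K c.Vs)
    (h : cellChk (cxOf g.G A) cs n1 n0 c (c.Vs.map (pk g.G)) = true) : Good g (cs / 2 ^ 44) n0 := by
  simp only [cellChk, Bool.and_eq_true, zle_iff, Nat.blt_eq, Nat.ble_eq] at h
  obtain ⟨⟨⟨⟨⟨⟨⟨⟨⟨a1, a2⟩, a3⟩, a4⟩, a5⟩, a6⟩, a7⟩, a8⟩, a9⟩, a10⟩ := h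
  obtain ⟨hk0, hupd⟩ := rows_ok h1.k hK a5 a6
  have hic := h1.ic
  have hcap := cap_sound hA hk0 (a2.trans hic) a9
  have hKm := h1.k.comb c.m
  set ks := kL (cxOf g.G A) n0.S n1.S
  have hc : ComOK g ⟨(cxOf g.G A).bias, c.Vs.map (pk g.G), comb c.m n1.K, dotG (cxOf g.G A) c.m (comb c.m n1.K),
      Int.ofNat c.gam, Int.subNatNat n0.S n1.S, cs,
      PV.smul 295147905179352825856 ((pk g.G n1.pL).add (PV.smul (-1) (pk g.G n0.pL))),
      PV.smul 295147905179352825856 ((pk g.G n1.pR).add (PV.smul (-1) (pk g.G n0.pR))),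
      Int.mul (Int.sub n1.c n0.c) 302231454903657293676544⟩ (rn g.G n0) (rn g.G n1)
      (((n0.S : ℝ) - n1.S) / (262144 : ℕ)) (c.gam / 2 ^ 16) (cs / 2 ^ 44)
      (fun r k => (((c.Vs.getD r []).getD k 0 : ℤ) : ℝ) / 2 ^ 30) (fun k => (c.m.getD k 0 : ℤ) / 2 ^ 10) := by
    refine ⟨rfl, fun r hr => (rep_Vp g.G c.Vs r hr).real fun k _ => by ring, hKm, dotG_eq hKm a4 _, ?_, ?_,
      by ring, ?_, ?_, ?_, hupd, h1.k.sym, h1.k.psd⟩
    · simp only [zo]; push_cast; ring
    · simp only [Int.subNatNat_eq_coe]; push_cast; ring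
    · refine (((repR_p n1.pL).add ((repR_p n0.pL).smul (-1))).smul _).congr fun b _ => ?_
      simp only [rn]; push_cast; ring
    · refine (((repR_p n1.pR).add ((repR_p n0.pR).smul (-1))).smul _).congr fun b _ => ?_
      simp only [rn]; push_cast; ring
    · simp only [rn, zm, zs]; push_cast; ring
  have hs : ∀ n : INode, SideOK g ⟨Int.ofNat n.S, n.c, pk g.G n.pL, pk g.G n.pR,
      pk g.G (psL g.G n.S ks A), pk g.G (psL g.G n.S ks A.tail)⟩ (rn g.G n) ((n.S : ℝ) / (262144 : ℕ))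
      (psf g.G n.S ks A) (psf g.G n.S ks A.tail) := fun n => by
    refine ⟨?_, ?_, repR_p _, repR_p _, repR_p _, repR_p _⟩
    · simp only [zo]; push_cast; ring
    · simp only [rn]; ring
  have hn : ∀ i ≤ n1.ic, _ := fun i hi => node_sound hc (hs n0) (hs n1) hi hic (by omega)
    (ω := fun b => (c.om.getD b 0 : ℤ) / 2 ^ 8) (lam := fun b => (c.lam.getD b 0 : ℤ) / 2 ^ 8)
    (cr0 := crf (0 :: crL (cxOf g.G A) n0) n1.ic) (cr1 := crf (0 :: crL (cxOf g.G A) n1) n1.ic)
    (hA.hA i) (by ring) (repR_RL hA (hi.trans hic)) (repR_RR hA (hi.trans hic))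
    (op := (0 :: zw (fun (d w : ℤ) (_ : ℕ) => Int.mul w d) 0 0 0 g.G (cxOf g.G A).dA c.om []).getD i 0)
    (oc := (0 :: zw (fun (d w : ℤ) (_ : ℕ) => Int.mul w d) 0 0 0 g.G (cxOf g.G A).dA c.om []).getD (i + 1) 0)
    (by
      cases i with
      | zero => simp
      | succ i =>
        have hG : i < g.G := by omega
        simp only [List.getD_cons_succ, zw_getD _ _ _ _ hG, zm, Nat.add_sub_cancel, Nat.succ_ne_zero,
          if_false]
        push_cast
        rw [hA.dA hG]; ring)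
    (fun hi' => by
      have hG : i < g.G := by omega
      simp only [List.getD_cons_succ, zw_getD _ _ _ _ hG, zm]
      push_cast
      rw [hA.dA hG]; ring)
    (repR_cum hA hk0 i) (repR_cum hA h1.k i) (phi_eq hA n0 i) (phi_eq hA n1 i) (dg_eq hA n0 i)
    (dg_eq hA n1 i) (by simp only [crf]; ring) (by simp only [crf]; ring)
    (by
      have := loop_get a10 (Nat.lt_succ_of_le hi)
      rw [zero_add] at this
      exact this)
  refine ⟨hk0, hS, a2.trans hic, hcap, g.bound_cell (by norm_num) h1.S a1 hk0.sym h1.k.sym a2 hic a3 hcap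
    h1.cap (ps_ok hA n0.S n1.S ks) ?_ ?_ (fun i hi => (hn i hi).1) (cr_ok hA n0 hic) (cr_ok hA n1 hic)
    (fun i hi => (hn i hi).2.1) (fun i hi => (hn i hi).2.2) h1.bd⟩
  · simp only [zm, za, zo] at a8
    have b1 := (Int.cast_le (R := ℝ)).2 a8
    push_cast at b1
    change _ ≤ (_ + _ * ((A.getD g.G 0 : ℤ) : ℝ)) * _ at b1
    rw [hA.hA] at b1
    push_cast
    linarith
  · intro b
    have : 0 ≤ c.om.getD b 0 ∧ c.om.getD b 0 ≤ 256 := by
      by_cases hb : b < c.om.length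
      · simpa only [Bool.and_eq_true, zle_iff] using all_getD a7 hb 0
      · rw [List.getD_eq_default _ _ (by omega)]; norm_num
    have b1 : (0 : ℝ) ≤ (c.om.getD b 0 : ℤ) := by exact_mod_cast this.1
    have b2 : ((c.om.getD b 0 : ℤ) : ℝ) ≤ 256 := by exact_mod_cast this.2
    constructor
    · positivity
    · rw [div_le_one (by positivity)]; linarith

lemma same_sound {cs : ℝ} {n : INode} {t : LNode} (h1 : Good g cs n) (h : same n (t.toI g.G) = true) :
    Good g cs (t.toI g.G) := by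
  simp only [same, Bool.and_eq_true, Nat.beq_eq, decide_eq_true_eq] at h
  obtain ⟨⟨⟨⟨⟨⟨a1, a2⟩, a3⟩, a4⟩, a5⟩, a6⟩, a7⟩ := h
  have b6 := zeq_eq a6
  have hl : (t.toI g.G).K.length = g.G := by
    have := congrArg List.length b6
    simp only [List.length_map] at this
    rw [← this, h1.k.len]
  have hkv : kv g.G (t.toI g.G).K = kv g.G n.K := by
    funext b k
    have e : ∀ K : List PV, (K.getD b PV.zero).x = (K.map PV.x).getD b 0 := fun K =>
      (List.getD_map K PV.zero PV.x (n := b)).symm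
    simp only [kv, e, b6]
  have e : rn g.G (t.toI g.G) = rn g.G n := by
    simp only [rn, hkv, a2, zeq_eq a3, zeq_eq a4]
  refine ⟨⟨hl, fun b hb => ?_, e ▸ h1.k.sym, e ▸ h1.k.psd⟩, a1 ▸ h1.S, a5 ▸ h1.ic, ?_, ?_⟩
  · have := rep_Vp g.G t.K b (hb.trans_eq hl.symm)
    exact this.congr fun k hk => (this.get (all_getD a7 (hb.trans_eq hl.symm) PV.zero) hk).symm
  · rw [e, ← a1, ← a5]; exact h1.cap
  · rw [e, ← a1]; exact h1.bd

lemma run_sound (hA : GOK g A) {cs : ℤ} {t : LNode} {l : List ICell} {n1 : INode}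
    (h1 : Good g (cs / 2 ^ 44) n1) (h : run (cxOf g.G A) cs (t.toI g.G) l n1 = true) :
    Good g (cs / 2 ^ 44) (t.toI g.G) := by
  induction l generalizing n1 with
  | nil => exact same_sound h1 h
  | cons c l ih =>
    simp only [run, fL_eq, Bool.and_eq_true] at h
    refine ih (cell_sound hA h1 ?_ rfl h.1) h.2
    have := h.1
    simp only [cellChk, Bool.and_eq_true, Nat.blt_eq] at this
    exact lt_of_le_of_lt (Nat.zero_le _) this.1.1.1.1.1.1.1.1.1

theorem block_sound (hA : GOK g A) {cs : ℤ} {n1 n0 : LNode} {l : List ICell}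
    (h : block g.G A cs n1 l n0 = true) (h1 : Good g (cs / 2 ^ 44) (n1.toI g.G)) :
    Good g (cs / 2 ^ 44) (n0.toI g.G) := by
  simp only [block, fL_eq] at h
  exact run_sound hA h1 h

theorem term_sound (hA : GOK g A) {cs : ℤ} {S : ℕ} (hS : 0 < S)
    (h : capChk (cxOf g.G A) ((termNode g.G A S cs).toI g.G) [] = true) :
    Good g (cs / 2 ^ 44) ((termNode g.G A S cs).toI g.G) := by
  set t := (termNode g.G A S cs).toI g.G with ht
  have hl : t.K.length = g.G := by simp [ht, termNode, LNode.toI]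
  have hr : ∀ b < g.G, Rep g.G (t.K.getD b PV.zero) fun _ => 0 := fun b hb =>
    (rep_Vp g.G (List.replicate g.G []) b (by simpa using hb)).congr fun k _ => by simp [hb]
  have hz : ∀ b < g.G, ∀ k < g.G, kv g.G t.K b k = 0 := fun b hb k hk => (hr b hb).get (by
    simp only [ht, termNode, LNode.toI, List.map_replicate, List.getD_replicate _ hb]
    rfl) hk
  have hQ : ∀ N, g.Q (rn g.G t).K N = 0 := fun N =>
    sum_eq_zero fun b hb => sum_eq_zero fun k hk => by
      simp [rn, hz b (mem_range.1 hb) k (mem_range.1 hk)]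
  have hk : KOK g t := ⟨hl, fun b hb => (hr b hb).congr fun k hk => (hz b hb k hk).symm,
    fun b hb k hk => by simp only [rn, hz b hb k hk, hz k hk b hb], fun N => (hQ N).ge⟩
  exact ⟨hk, hS, le_rfl, cap_sound hA hk le_rfl h,
    g.bound_terminal (by norm_num) hS le_rfl hQ (ps_ok hA S S _)⟩

end
end Pool.Agent.MP_3bf126_pr.H40
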