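/-! The certificate checker (integer arithmetic only; vectors are packed into one integer, base `2^160`). -/

namespace Pool.Agent.MP_3bf126_pr.H40

structure PV where
  x : Int
  u : Nat

def PV.zero : PV := ⟨0, 0⟩
def PV.add (a b : PV) : PV := ⟨Int.add a.x b.x, Nat.add a.u b.u⟩
def PV.smul (c : Int) (a : PV) : PV := ⟨Int.mul c a.x, Nat.mul c.natAbs a.u⟩
def PV.single (b : Nat) (c : Int) : PV := ⟨Int.mul c (Int.ofNat (Nat.shiftLeft 1 (Nat.mul 160 b))), c.natAbs⟩

def pkn (o : Int) : Nat → List Int → Nat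
  | 0, _ => 0
  | G + 1, l => Nat.add (Int.add (l.headD 0) o).toNat (Nat.mul (pkn o G l.tail) 1461501637330902918203684832716283019655932542976)

def mx : List Int → Nat
  | [] => 0
  | d :: l => cond (Nat.ble d.natAbs (mx l)) (mx l) d.natAbs

def rp (d : Nat) : Nat → Nat
  | 0 => 0
  | G + 1 => Nat.add d (Nat.mul (rp d G) 1461501637330902918203684832716283019655932542976)

def pk (G : Nat) (l : List Int) : PV :=
  ⟨Int.subNatNat (pkn (Int.ofNat (mx l)) G l) (Nat.mul (mx l) (rp 1 G)), mx l⟩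

def PV.small (v : PV) : Bool := Nat.blt v.u 730750818665451459101842416358141509827966271488

def PV.nn (bias : Nat) (v : PV) : Bool :=
  v.small && Nat.beq (Nat.land (Int.add v.x (Int.ofNat bias)).toNat bias) bias

def getx (bias : Nat) (x : Int) (k : Nat) : Int :=
  Int.subNatNat (Nat.mod (Nat.shiftRight (Int.add x (Int.ofNat bias)).toNat (Nat.mul 160 k)) 1461501637330902918203684832716283019655932542976)
    730750818665451459101842416358141509827966271488

def PV.fl (bias mask b16 : Nat) (v : PV) : PV :=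
  ⟨Int.subNatNat (Nat.land (Nat.shiftRight (Int.add v.x (Int.ofNat bias)).toNat 16) mask) b16,
    Nat.succ (Nat.div v.u 65536)⟩

def comb : List Int → List PV → PV
  | z :: zs, v :: vs => (PV.smul z v).add (comb zs vs)
  | _, _ => PV.zero

def zw {α β γ δ : Type} (f : α → β → γ → δ) (a0 : α) (b0 : β) (c0 : γ) :
    Nat → List α → List β → List γ → List δ
  | 0, _, _, _ => []
  | n + 1, a, b, c => f (a.headD a0) (b.headD b0) (c.headD c0) :: zw f a0 b0 c0 n a.tail b.tail c.tail

def sufZ : List Int → List Int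
  | [] => [0]
  | d :: l => Int.add d ((sufZ l).headD 0) :: sufZ l

def sufPV : List Int → List PV → List PV
  | d :: ds, v :: vs => (PV.smul d v).add ((sufPV ds vs).headD PV.zero) :: sufPV ds vs
  | _, _ => [PV.zero]

def fN {β : Type} (n : Nat) (k : Nat → β) : β := Nat.rec (k 0) (fun m _ => k (Nat.succ m)) n

def fZ {β : Type} (z : Int) (k : Int → β) : β :=
  match z with
  | Int.ofNat n => fN n fun m => k (Int.ofNat m)
  | Int.negSucc n => fN n fun m => k (Int.negSucc m)

def fL {β : Type} : List PV → (List PV → β) → β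
  | [], k => k []
  | v :: l, k => fZ v.x fun x => fN v.u fun u => fL l fun l' => k (⟨x, u⟩ :: l')

structure Ctx where
  G : Nat
  A : List Int
  dA : List Int
  idx : List Nat
  bias : Nat
  mask : Nat
  b16 : Nat
  RL : List PV
  RR : List PV

def rampList (G i : Nat) (Ai : Int) (A : List Int) : List Int :=
  zw (fun (b : Nat) (x : Int) (_ : Nat) => cond (Nat.blt (Nat.succ b) i) (Int.mul 256 (Int.sub Ai x)) 0)
    0 0 0 G (List.range G) A []

def mkCtx (G : Nat) (A : List Int) (RL RR : List PV) : Ctx where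
  G := G
  A := A
  dA := zw (fun (x y : Int) (_ : Nat) => Int.sub y x) 0 0 0 G A A.tail []
  idx := List.range G
  bias := rp 730750818665451459101842416358141509827966271488 G
  mask := rp 22300745198530623141535718272648361505980415 G
  b16 := rp 11150372599265311570767859136324180752990208 G
  RL := RL
  RR := RR

def mkRL (G : Nat) (A : List Int) : List PV :=
  zw (fun (i : Nat) (x : Int) (_ : Nat) => pk G (rampList G i x A)) 0 0 0 (G + 1) (List.range (G + 1)) A []

def mkRR (G : Nat) (A : List Int) : List PV :=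
  zw (fun (i : Nat) (x : Int) (_ : Nat) => pk G (rampList G i x A.tail)) 0 0 0 (G + 1) (List.range (G + 1)) A []

structure INode where
  S : Nat
  c : Int
  pL : List Int
  pR : List Int
  K : List PV
  ic : Nat

structure LNode where
  S : Nat
  c : Int
  pL : List Int
  pR : List Int
  K : List (List Int)
  ic : Nat

def LNode.toI (G : Nat) (n : LNode) : INode := ⟨n.S, n.c, n.pL, n.pR, n.K.map (pk G), n.ic⟩

structure ICell where
  S : Nat
  c : Int
  ic : Nat
  gam : Nat
  pL : List Int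
  pR : List Int
  Vs : List (List Int)
  m : List Int
  mc : List Int
  om : List Int
  lam : List Int
  zL : List (List Int)
  zR : List (List Int)

def rows (cx : Ctx) (gam : Int) (Vp : List PV) : Nat → Nat → List PV → List (List Int) → List PV
  | 0, _, _, _ => []
  | n + 1, b, K, Vs =>
    ((((PV.smul gam (K.headD PV.zero)).fl cx.bias cx.mask cx.b16).add
      (comb (Vs.map fun l => l.headD 0) Vp)).add (PV.single b (Int.ofNat cx.G))) ::
      rows cx gam Vp n (Nat.succ b) K.tail (Vs.map List.tail)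

def zle (a b : Int) : Bool := decide (a ≤ b)
def zmax (a b : Int) : Int := cond (zle a b) b a

def dotG (cx : Ctx) (m : List Int) (v : PV) : Int :=
  (sufZ (zw (fun (b : Nat) (x : Int) (_ : Nat) => Int.mul x (getx cx.bias v.x b)) 0 0 0 cx.G cx.idx m [])).headD 0

def sqs : List Int → List PV → Int
  | z :: zs, _ :: vs => Int.add (Int.mul z z) (sqs zs vs)
  | _, _ => 0

def phiL (cx : Ctx) (n : INode) : List Int :=
  sufZ (zw (fun d p q : Int => Int.mul d (Int.add p q)) 0 0 0 cx.G cx.dA n.pL n.pR)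

def dgL (cx : Ctx) (n : INode) : List Int :=
  sufZ (zw (fun (b : Nat) (d : Int) (v : PV) => Int.mul d (getx cx.bias v.x b)) 0 0 PV.zero cx.G cx.idx cx.dA n.K)

def crL (cx : Ctx) (n : INode) : List Int :=
  zw (fun d p q : Int => zmax 0 (Int.sub (Int.mul (Int.mul (Int.ofNat n.S) (Int.mul d d)) 17592186044416)
    (Int.mul (Int.mul (Int.sub q p) d) 67108864))) 0 0 0 cx.G cx.dA n.pL n.pR

def kL (cx : Ctx) (S0 S1 : Nat) : List Nat :=
  zw (fun (x y : Int) (_ : Nat) => Nat.sub 4096 (Nat.shiftRight (Nat.mul (Nat.add S0 S1) (Int.add x y).toNat) 20))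
    0 0 0 cx.G cx.A cx.A.tail []

def psv (S k : Nat) (x : Int) : Int :=
  cond (Nat.ble k 2048) 0 (Int.shiftRight (Int.mul (Int.ofNat (Nat.pow k 15))
    (Int.sub (Int.sub 4398046511104 (Int.mul (Int.mul (Int.ofNat S) x) 4096))
      (Int.ofNat (Nat.mul k 1006632960)))) 174)

def psL (G S : Nat) (ks : List Nat) (A : List Int) : List Int :=
  zw (fun (k : Nat) (x : Int) (_ : Nat) => psv S k x) 0 0 0 G ks A []

structure Side where
  S : Int
  c : Int
  pL : PV
  pR : PV
  sL : PV
  sR : PV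

structure Com where
  bias : Nat
  Vp : List PV
  Km : PV
  Kmm : Int
  gam : Int
  D : Int
  cs : Int
  dL : PV
  dR : PV
  dc : Int

def side (cm : Com) (sd : Side) (aq aq' A lam : Int) (rL rR cum : PV) (Phi dg cr : Int)
    (z : List Int) : Bool :=
  let M := Int.add A lam
  let bq := Int.sub (Int.mul cm.gam aq) (Int.mul 65536 aq')
  let com := (PV.smul (Int.mul aq 2147483648) (comb z cm.Vp)).add
    ((PV.smul (Int.mul 2 bq) cm.Km).add (PV.smul (Int.mul cm.D (-134217728)) cum))
  let c1 := Int.mul (Int.mul cm.D M) (-4398046511104)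
  let c2 := Int.mul (Int.mul cm.D lam) 4398046511104
  zle 0 aq && zle 0 bq &&
  zle 0 (Int.sub (Int.sub (Int.add cm.dc (Int.mul cm.D
      (Int.add (Int.sub (Int.add (Int.mul A 79228162514264337593543950336) (Int.mul (Int.mul sd.S (Int.mul A A)) 590295810358705651712))
        (Int.mul cr 8388608))
      (Int.add (Int.mul (Int.sub (Int.mul lam cm.cs) (Int.mul M sd.c)) 4503599627370496)
        (Int.sub (Int.mul Phi 2251799813685248) (Int.mul dg 68719476736))))))
      (Int.mul (Int.mul aq (sqs z cm.Vp)) 17592186044416)) (Int.mul bq cm.Kmm)) &&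
  ((cm.dL.add (((PV.smul c1 sd.pL).add (PV.smul c2 sd.sL)).add rL)).add com).nn cm.bias &&
  ((cm.dR.add (((PV.smul c1 sd.pR).add (PV.smul c2 sd.sR)).add rR)).add com).nn cm.bias

structure St where
  A : List Int
  RL : List PV
  RR : List PV
  c0 : List PV
  c1 : List PV
  P0 : List Int
  P1 : List Int
  d0 : List Int
  d1 : List Int
  e0 : List Int
  e1 : List Int
  od : List Int
  lam : List Int
  zL : List (List Int)
  zR : List (List Int)

def St.tl (s : St) : St :=
  ⟨s.A.tail, s.RL.tail, s.RR.tail, s.c0.tail, s.c1.tail, s.P0.tail, s.P1.tail, s.d0.tail, s.d1.tail,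
    s.e0.tail, s.e1.tail, s.od.tail, s.lam.tail, s.zL.tail, s.zR.tail⟩

def nodeChk (cm : Com) (s0 s1 : Side) (ic i : Nat) (A lam : Int) (RL RR c0 c1 : PV)
    (P0 P1 d0 d1 e0p e0 e1p e1 op oc : Int) (zL zR : List Int) : Bool :=
  let DM := Int.mul cm.D (Int.add A lam)
  let w := Int.mul cm.D 302231454903657293676544
  let rL := PV.smul w (RL.add (PV.single (Nat.pred i) op))
  let rR := PV.smul w (cond (Nat.blt i ic) (RR.add (PV.single i (Int.neg oc))) RR)
  zle 0 lam &&
  side cm s0 (Int.add 67108864 DM) 67108864 A lam rL rR c0 P0 d0 (cond (Nat.blt i ic) (zmax e0p e0) e0p) zL &&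
  side cm s1 67108864 (Int.sub 67108864 DM) A lam rL rR c1 P1 d1 (cond (Nat.blt i ic) (zmax e1p e1) e1p) zR

def loop (cm : Com) (s0 s1 : Side) (ic : Nat) : Nat → Nat → St → Bool
  | 0, _, _ => true
  | n + 1, i, s =>
    nodeChk cm s0 s1 ic i (s.A.headD 0) (s.lam.headD 0) (s.RL.headD PV.zero) (s.RR.headD PV.zero)
      (s.c0.headD PV.zero) (s.c1.headD PV.zero) (s.P0.headD 0) (s.P1.headD 0) (s.d0.headD 0)
      (s.d1.headD 0) (s.e0.headD 0) (s.e0.tail.headD 0) (s.e1.headD 0) (s.e1.tail.headD 0)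
      (s.od.headD 0) (s.od.tail.headD 0) (s.zL.headD []) (s.zR.headD []) &&
    loop cm s0 s1 ic n (Nat.succ i) s.tl

def capChk (cx : Ctx) (n : INode) (mc : List Int) : Bool :=
  let Kc := comb mc n.K
  let o := (PV.smul 1180591620717411303424 (pk cx.G (List.replicate n.ic 1))).add (PV.smul 2 Kc)
  Kc.small &&
  zle 0 (Int.sub (Int.sub (Int.mul (Int.add 67108864 (Int.mul (Int.ofNat n.S) (cx.A.getD n.ic 0))) 18014398509481984)
    (Int.mul n.c 68719476736)) (dotG cx mc Kc)) &&
  (o.add (PV.smul (-67108864) (pk cx.G n.pL))).nn cx.bias &&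
  (o.add (PV.smul (-67108864) (pk cx.G n.pR))).nn cx.bias

def cellChk (cx : Ctx) (cs : Int) (n1 n0 : INode) (c : ICell) (Vp : List PV) : Bool :=
  let Km := comb c.m n1.K
  let ks := kL cx n0.S n1.S
  let L0 := pk cx.G n0.pL
  let R0 := pk cx.G n0.pR
  let L1 := pk cx.G n1.pL
  let R1 := pk cx.G n1.pR
  Nat.blt n1.S n0.S && Nat.ble n0.ic n1.ic && Nat.blt 0 n1.ic && Km.small &&
  n1.K.all (fun v => (PV.smul (Int.ofNat c.gam) v).small) && n0.K.all PV.small &&
  c.om.all (fun w => zle 0 w && zle w 256) &&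
  zle (Int.mul cs 67108864) (Int.mul (Int.add 67108864 (Int.mul (Int.ofNat n1.S) (cx.A.getD cx.G 0))) 17592186044416) &&
  capChk cx n0 c.mc &&
  loop ⟨cx.bias, Vp, Km, dotG cx c.m Km, Int.ofNat c.gam, Int.subNatNat n0.S n1.S, cs,
      PV.smul 295147905179352825856 (L1.add (PV.smul (-1) L0)), PV.smul 295147905179352825856 (R1.add (PV.smul (-1) R0)),
      Int.mul (Int.sub n1.c n0.c) 302231454903657293676544⟩
    ⟨Int.ofNat n0.S, n0.c, L0, R0, pk cx.G (psL cx.G n0.S ks cx.A), pk cx.G (psL cx.G n0.S ks cx.A.tail)⟩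
    ⟨Int.ofNat n1.S, n1.c, L1, R1, pk cx.G (psL cx.G n1.S ks cx.A), pk cx.G (psL cx.G n1.S ks cx.A.tail)⟩
    n1.ic (Nat.succ n1.ic) 0
    ⟨cx.A, cx.RL, cx.RR, sufPV cx.dA n0.K, sufPV cx.dA n1.K, phiL cx n0, phiL cx n1, dgL cx n0, dgL cx n1,
      0 :: crL cx n0, 0 :: crL cx n1,
      0 :: zw (fun (d w : Int) (_ : Nat) => Int.mul w d) 0 0 0 cx.G cx.dA c.om [], c.lam, c.zL, c.zR⟩

def zeq : List Int → List Int → Bool
  | [], [] => true
  | a :: l, b :: l' => decide (a = b) && zeq l l'
  | _, _ => false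

def same (n t : INode) : Bool :=
  Nat.beq n.S t.S && decide (n.c = t.c) && zeq n.pL t.pL && zeq n.pR t.pR && Nat.beq n.ic t.ic &&
    zeq (n.K.map PV.x) (t.K.map PV.x) && t.K.all PV.small

def run (cx : Ctx) (cs : Int) (t : INode) : List ICell → INode → Bool
  | [], n1 => same n1 t
  | c :: l, n1 =>
    fL (c.Vs.map (pk cx.G)) fun Vp =>
    fL (rows cx (Int.ofNat c.gam) Vp cx.G 0 n1.K c.Vs) fun K0 =>
      cellChk cx cs n1 ⟨c.S, c.c, c.pL, c.pR, K0, c.ic⟩ c Vp && run cx cs t l ⟨c.S, c.c, c.pL, c.pR, K0, c.ic⟩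

def block (G : Nat) (A : List Int) (cs : Int) (n1 : LNode) (l : List ICell) (n0 : LNode) : Bool :=
  fL (mkRL G A) fun RL => fL (mkRR G A) fun RR => fL (n1.K.map (pk G)) fun K1 =>
    run (mkCtx G A RL RR) cs (n0.toI G) l ⟨n1.S, n1.c, n1.pL, n1.pR, K1, n1.ic⟩

def termNode (G : Nat) (A : List Int) (S : Nat) (cs : Int) : LNode :=
  ⟨S, cs, psL G S (kL (mkCtx G A [] []) S S) A, psL G S (kL (mkCtx G A [] []) S S) A.tail,
    List.replicate G [], G⟩

/-- decoding of the data: `n` digits of width `w`, offset `2^(w-1)` -/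
def unp (w p h : Nat) : Nat → Nat → List Int
  | 0, _ => []
  | n + 1, X => Int.subNatNat (Nat.mod X p) h :: unp w p h n (Nat.shiftRight X w)

def unp2 (w p h n W Q : Nat) : Nat → Nat → List (List Int)
  | 0, _ => []
  | k + 1, X => unp w p h n (Nat.mod X Q) :: unp2 w p h n W Q k (Nat.shiftRight X W)

end Pool.Agent.MP_3bf126_pr.H40
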