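import Pool.Agent.MP_3bf126_pr.H40.Check

namespace Pool.Agent.MP_3bf126_pr.H40

def GG : Nat := 83
def AA : List Int := [0, 128, 205, 256, 281, 309, 340, 362, 385, 411, 437, 466, 496, 528, 562, 599, 638, 679, 724, 771, 821, 874, 931, 991, 1056, 1124, 1198, 1275, 1358, 1447, 1541, 1644, 1754, 1874, 2003, 2144, 2296, 2462, 2642, 2838, 3052, 3285, 3540, 3819, 4125, 4461, 4830, 5236, 5684, 6179, 6726, 7332, 8005, 8753, 9587, 10517, 11558, 12725, 14036, 15512, 17177, 19062, 21199, 23631, 26404, 29576, 33215, 37404, 42241, 47848, 54369, 61983, 70911, 81423, 93855, 108631, 126279, 147471, 173064, 204157, 242179, 288990, 347050, 419630]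
def CS : Int := 38702809297715
def SJ : Nat := 1071

end Pool.Agent.MP_3bf126_pr.H40
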