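import Pool.Agent.MP_3bf126_pr.H40.Chain
import Pool.Agent.MP_3bf126_pr.H40.Boot
import Pool.Agent.MP_3bf126_pr.H40.Blk1
import Pool.Agent.MP_3bf126_pr.H40.Blk2
import Pool.Agent.MP_3bf126_pr.H40.Blk3
import Pool.Agent.MP_3bf126_pr.H40.Blk4
import Pool.Agent.MP_3bf126_pr.H40.Blk5
import Pool.Agent.MP_3bf126_pr.H40.Blk6
import Pool.Agent.MP_3bf126_pr.H40.Blk7
import Pool.Agent.MP_3bf126_pr.H40.Blk8
import Pool.Agent.MP_3bf126_pr.H40.Blk9
import Pool.Agent.MP_3bf126_pr.H40.Blk10
import Pool.Agent.MP_3bf126_pr.H40.Blk11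
import Pool.Agent.MP_3bf126_pr.H40.Blk12
import Pool.Agent.MP_3bf126_pr.H40.Blk13
import Pool.Agent.MP_3bf126_pr.H40.Blk14
import Pool.Agent.MP_3bf126_pr.H40.Blk15
import Pool.Agent.MP_3bf126_pr.H40.Blk16
import Pool.Agent.MP_3bf126_pr.H40.Blk17
import Pool.Agent.MP_3bf126_pr.H40.Blk18
import Pool.Agent.MP_3bf126_pr.H40.Blk19
import Pool.Agent.MP_3bf126_pr.H40.Blk20
import Pool.Agent.MP_3bf126_pr.H40.Blk21
import Pool.Agent.MP_3bf126_pr.H40.Blk22
import Pool.Agent.MP_3bf126_pr.H40.Blk23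
import Pool.Agent.MP_3bf126_pr.H40.Blk24

/-! The certificate, assembled. -/

namespace Pool.Agent.MP_3bf126_pr.H40
noncomputable section

lemma AA_inc : ∀ b < GG, AA.getD b 0 < AA.getD (b + 1) 0 := by decide +kernel

def grid : Grid where
  G := GG
  a b := (AA.getD b 0 : ℤ) / 2 ^ 8
  a0 := by simp [AA]
  inc b hb := by
    have : ((AA.getD b 0 : ℤ) : ℝ) < (AA.getD (b + 1) 0 : ℤ) := by exact_mod_cast AA_inc b hb
    gcongr

lemma gok : GOK grid AA := ⟨fun b => by simp only [grid]; ring⟩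

lemma term_cap : capChk (cxOf GG AA) ((termNode GG AA SJ CS).toI GG) [] = true := by decide +kernel

theorem good : Good grid (CS / 2 ^ 44) (nd24.toI GG) :=
  block_sound gok blk24 <| block_sound gok blk23 <| block_sound gok blk22 <| block_sound gok blk21 <|
  block_sound gok blk20 <| block_sound gok blk19 <| block_sound gok blk18 <| block_sound gok blk17 <|
  block_sound gok blk16 <| block_sound gok blk15 <| block_sound gok blk14 <| block_sound gok blk13 <|
  block_sound gok blk12 <| block_sound gok blk11 <| block_sound gok blk10 <| block_sound gok blk9 <|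
  block_sound gok blk8 <| block_sound gok blk7 <| block_sound gok blk6 <| block_sound gok blk5 <|
  block_sound gok blk4 <| block_sound gok blk3 <| block_sound gok blk2 <| block_sound gok blk1 <|
  term_sound gok (by decide) term_cap

theorem ev_main : Ev 2.2146 := by
  have h : grid.Bound 262144 262144 (CS / 2 ^ 44) (rn GG (nd24.toI GG)) := good.bd
  have e : (rn GG (nd24.toI GG)).c = 38960144351214 / 2 ^ 44 := by
    simp only [rn, LNode.toI, nd24]; norm_num
  refine boot (by norm_num) h ?_ ?_ ?_ <;> rw [e] <;> norm_num [CS]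

end
end Pool.Agent.MP_3bf126_pr.H40
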