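import Mathlib
import Pool.Agent.MP_3bf126_pr.H40.Check

/-! Integer vectors packed into one big integer (base `2^160`, signed digits). -/

namespace Pool.Agent.MP_3bf126_pr.H40
open Finset

def Rep (G : ℕ) (v : PV) (f : ℕ → ℤ) : Prop :=
  v.x = ∑ k ∈ range G, f k * 2 ^ (160 * k) ∧ ∀ k < G, (f k).natAbs ≤ v.u

lemma Rep.congr {G : ℕ} {v : PV} {f f' : ℕ → ℤ} (h : Rep G v f) (e : ∀ k < G, f k = f' k) :
    Rep G v f' :=
  ⟨h.1.trans (sum_congr rfl fun k hk => by rw [e k (mem_range.1 hk)]), fun k hk => e k hk ▸ h.2 k hk⟩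

lemma rep_zero (G : ℕ) : Rep G PV.zero fun _ => 0 := ⟨by simp [PV.zero], by simp⟩

lemma Rep.add {G : ℕ} {a b : PV} {f f' : ℕ → ℤ} (h : Rep G a f) (h' : Rep G b f') :
    Rep G (a.add b) fun k => f k + f' k := by
  refine ⟨?_, fun k hk => (Int.natAbs_add_le _ _).trans (Nat.add_le_add (h.2 k hk) (h'.2 k hk))⟩
  change a.x + b.x = _
  rw [h.1, h'.1, ← sum_add_distrib]
  exact sum_congr rfl fun k _ => by ring

lemma Rep.smul {G : ℕ} {a : PV} {f : ℕ → ℤ} (h : Rep G a f) (c : ℤ) :
    Rep G (PV.smul c a) fun k => c * f k := by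
  refine ⟨?_, fun k hk => ?_⟩
  · change c * a.x = _
    rw [h.1, mul_sum]
    exact sum_congr rfl fun k _ => by ring
  · rw [Int.natAbs_mul]
    exact Nat.mul_le_mul_left _ (h.2 k hk)

lemma rep_single {G b : ℕ} (hb : b < G) (c : ℤ) :
    Rep G (PV.single b c) fun k => if k = b then c else 0 := by
  refine ⟨?_, fun k _ => ?_⟩
  · change c * ((1 <<< (160 * b) : ℕ) : ℤ) = _
    simp [Nat.shiftLeft_eq, hb]
  · change (if k = b then c else 0).natAbs ≤ c.natAbs
    split_ifs <;> simp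

lemma le_mx (l : List ℤ) (k : ℕ) : (l.getD k 0).natAbs ≤ mx l := by
  induction l generalizing k with
  | nil => simp
  | cons d l ih =>
    have h : d.natAbs ≤ mx (d :: l) ∧ mx l ≤ mx (d :: l) := by
      simp only [mx]
      cases h : Nat.ble d.natAbs (mx l)
      · have : ¬ d.natAbs ≤ mx l := by simpa [← Nat.ble_eq] using h
        simp only [cond_false]; omega
      · have : d.natAbs ≤ mx l := by simpa [← Nat.ble_eq] using h
        simp only [cond_true]; omega
    cases k with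
    | zero => simpa using h.1
    | succ k => simpa using (ih k).trans h.2

lemma rep_comb {G : ℕ} (zs : List ℤ) (vs : List PV) (f : ℕ → ℕ → ℤ)
    (h : ∀ r < vs.length, Rep G (vs.getD r PV.zero) (f r)) :
    Rep G (comb zs vs) fun k => ∑ r ∈ range vs.length, zs.getD r 0 * f r k := by
  induction vs generalizing zs f with
  | nil => cases zs <;> simpa [comb] using rep_zero G
  | cons v vs ih =>
    cases zs with
    | nil => simpa [comb] using rep_zero G
    | cons z zs =>
      have h0 : Rep G v (f 0) := by simpa using h 0 (by simp)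
      have h1 := ih zs (fun r => f (r + 1)) fun r hr => by simpa using h (r + 1) (by simpa using hr)
      refine ((h0.smul z).add h1).congr fun k _ => ?_
      rw [List.length_cons, sum_range_succ']
      simp [add_comm]

/-- natural-number digits -/
def ns (t : ℕ → ℕ) (G : ℕ) : ℕ := ∑ k ∈ range G, t k * 2 ^ (160 * k)

lemma ns_succ (t : ℕ → ℕ) (G : ℕ) : ns t (G + 1) = t 0 + 2 ^ 160 * ns (fun k => t (k + 1)) G := by
  simp only [ns]
  rw [sum_range_succ', mul_sum, add_comm, mul_zero, pow_zero, mul_one]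
  refine congrArg (t 0 + ·) (sum_congr rfl fun k _ => ?_)
  rw [mul_add, pow_add, mul_one]
  generalize 2 ^ 160 = P
  ring

lemma ns_mod {t : ℕ → ℕ} (G : ℕ) (h : t 0 < 2 ^ 160) : ns t (G + 1) % 2 ^ 160 = t 0 := by
  rw [ns_succ, Nat.add_mul_mod_self_left, Nat.mod_eq_of_lt h]

lemma ns_div {t : ℕ → ℕ} (G : ℕ) (h : t 0 < 2 ^ 160) :
    ns t (G + 1) / 2 ^ 160 = ns (fun k => t (k + 1)) G := by
  rw [ns_succ, Nat.add_mul_div_left _ _ (by positivity), Nat.div_eq_of_lt h, zero_add]

lemma rp_eq (d G : ℕ) : rp d G = ns (fun _ => d) G := by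
  induction G with
  | zero => simp [rp, ns]
  | succ G ih =>
    rw [ns_succ, ← ih]
    change d + rp d G * _ = _
    norm_num [mul_comm]

lemma pkn_eq (o : ℤ) (G : ℕ) (l : List ℤ) :
    pkn o G l = ns (fun k => (l.getD k 0 + o).toNat) G := by
  induction G generalizing l with
  | zero => simp [pkn, ns]
  | succ G ih =>
    rw [ns_succ]
    change (l.headD 0 + o).toNat + pkn o G l.tail * _ = _
    rw [ih]
    cases l <;> norm_num [mul_comm]

lemma rep_pk (G : ℕ) (l : List ℤ) : Rep G (pk G l) fun k => l.getD k 0 := by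
  refine ⟨?_, fun k _ => le_mx l k⟩
  simp only [pk]
  rw [Int.subNatNat_eq_coe, pkn_eq, rp_eq]
  change _ - ((mx l * _ : ℕ) : ℤ) = _
  simp only [ns, Nat.cast_sum, Nat.cast_mul, mul_sum, ← sum_sub_distrib]
  refine sum_congr rfl fun k _ => ?_
  have h := le_mx l k
  have : (((l.getD k 0 + Int.ofNat (mx l)).toNat : ℕ) : ℤ) = l.getD k 0 + mx l := by
    change (((l.getD k 0 + (mx l : ℤ)).toNat : ℕ) : ℤ) = _
    omega
  rw [this]; push_cast; ring

lemma ns_digit {t : ℕ → ℕ} {G : ℕ} (h : ∀ k < G, t k < 2 ^ 160) {k : ℕ} (hk : k < G) :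
    ns t G / 2 ^ (160 * k) % 2 ^ 160 = t k := by
  induction k generalizing t G with
  | zero =>
    obtain ⟨G, rfl⟩ : ∃ G', G = G' + 1 := ⟨G - 1, by omega⟩
    simpa using ns_mod G (h 0 hk)
  | succ k ih =>
    obtain ⟨G, rfl⟩ : ∃ G', G = G' + 1 := ⟨G - 1, by omega⟩
    rw [mul_add, mul_one, add_comm (160 * k), pow_add, ← Nat.div_div_eq_div_mul, ns_div G (h 0 (by omega))]
    exact ih (fun j hj => h (j + 1) (by omega)) (by omega)

lemma ns_land {t t' : ℕ → ℕ} {G : ℕ} (h : ∀ k < G, t k < 2 ^ 160) (h' : ∀ k < G, t' k < 2 ^ 160) :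
    ns t G &&& ns t' G = ns (fun k => t k &&& t' k) G := by
  induction G generalizing t t' with
  | zero => simp [ns]
  | succ G ih =>
    rw [← Nat.mod_add_div (ns t (G + 1) &&& ns t' (G + 1)) (2 ^ 160), Nat.and_mod_two_pow,
      Nat.and_div_two_pow, ns_mod G (h 0 (by omega)), ns_mod G (h' 0 (by omega)),
      ns_div G (h 0 (by omega)), ns_div G (h' 0 (by omega)),
      ih (fun j hj => h (j + 1) (by omega)) (fun j hj => h' (j + 1) (by omega)), ns_succ]

lemma ns_shift {t : ℕ → ℕ} {G : ℕ} (h : ∀ k < G, t k < 2 ^ 160) :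
    (ns t G / 2 ^ 16) &&& ns (fun _ => 2 ^ 144 - 1) G = ns (fun k => t k / 2 ^ 16) G := by
  induction G generalizing t with
  | zero => simp [ns]
  | succ G ih =>
    have h1 : (fun _ : ℕ => 2 ^ 144 - 1) 0 < 2 ^ 160 := by norm_num
    rw [← Nat.mod_add_div (ns t (G + 1) / 2 ^ 16 &&& ns (fun _ => 2 ^ 144 - 1) (G + 1)) (2 ^ 160),
      Nat.and_mod_two_pow, Nat.and_div_two_pow, ns_mod G h1, ns_div G h1,
      Nat.div_div_eq_div_mul, mul_comm (2 ^ 16), ← Nat.div_div_eq_div_mul, ns_div G (h 0 (by omega)),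
      ih (fun j hj => h (j + 1) (by omega)), ns_succ (fun k => t k / 2 ^ 16)]
    congr 1
    rw [Nat.and_two_pow_sub_one_eq_mod, Nat.mod_mod_of_dvd _ (by norm_num),
      ← Nat.mod_mul_right_div_self, ← pow_add, ns_mod G (h 0 (by omega))]

lemma Rep.bias {G : ℕ} {v : PV} {f : ℕ → ℤ} (h : Rep G v f) (hs : v.small = true) :
    (Int.add v.x (Int.ofNat (rp 730750818665451459101842416358141509827966271488 G))).toNat = ns (fun k => (f k + 2 ^ 159).toNat) G ∧
      ∀ k < G, (f k + 2 ^ 159).toNat < 2 ^ 160 ∧ (((f k + 2 ^ 159).toNat : ℕ) : ℤ) = f k + 2 ^ 159 := by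
  have hu : v.u < 2 ^ 159 := by
    have := hs
    simp only [PV.small, Nat.blt_eq] at this
    norm_num; exact this
  have h2 : ∀ k < G, (f k + 2 ^ 159).toNat < 2 ^ 160 ∧
      (((f k + 2 ^ 159).toNat : ℕ) : ℤ) = f k + 2 ^ 159 := fun k hk => by
    have := h.2 k hk
    constructor <;> omega
  refine ⟨?_, h2⟩
  have : v.x + (rp 730750818665451459101842416358141509827966271488 G : ℕ) = (ns (fun k => (f k + 2 ^ 159).toNat) G : ℕ) := by
    rw [rp_eq, h.1]
    simp only [ns, Nat.cast_sum, Nat.cast_mul, ← sum_add_distrib]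
    refine sum_congr rfl fun k hk => ?_
    rw [(h2 k (mem_range.1 hk)).2]
    push_cast; ring
  change (v.x + (rp 730750818665451459101842416358141509827966271488 G : ℕ)).toNat = _
  rw [this, Int.toNat_natCast]

lemma Rep.nonneg {G : ℕ} {v : PV} {f : ℕ → ℤ} (h : Rep G v f)
    (hn : v.nn (rp 730750818665451459101842416358141509827966271488 G) = true) : ∀ k < G, 0 ≤ f k := by
  intro k hk
  simp only [PV.nn, Bool.and_eq_true] at hn
  obtain ⟨e, h2⟩ := h.bias hn.1
  have h3 := Nat.eq_of_beq_eq_true hn.2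
  rw [e] at h3
  change (_ : ℕ) &&& (_ : ℕ) = _ at h3
  have h4 : ∀ k < G, (fun _ : ℕ => 730750818665451459101842416358141509827966271488) k < 2 ^ 160 := fun _ _ => by norm_num
  rw [rp_eq, ns_land (fun j hj => (h2 j hj).1) h4] at h3
  have h5 := ns_digit h4 hk
  rw [← h3, ns_digit (fun j hj => lt_of_le_of_lt Nat.and_le_left (h2 j hj).1) hk] at h5
  have h6 : (f k + 2 ^ 159).toNat &&& 730750818665451459101842416358141509827966271488 ≤ (f k + 2 ^ 159).toNat := Nat.and_le_left
  have := (h2 k hk).2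
  omega

lemma Rep.get {G : ℕ} {v : PV} {f : ℕ → ℤ} (h : Rep G v f) (hs : v.small = true) {k : ℕ}
    (hk : k < G) : getx (rp 730750818665451459101842416358141509827966271488 G) v.x k = f k := by
  obtain ⟨e, h2⟩ := h.bias hs
  unfold getx
  rw [e, Int.subNatNat_eq_coe]
  change (((_ >>> (160 * k)) % _ : ℕ) : ℤ) - _ = _
  have := ns_digit (fun j hj => (h2 j hj).1) hk
  rw [Nat.shiftRight_eq_div_pow, show (1461501637330902918203684832716283019655932542976 : ℕ) = 2 ^ 160 by norm_num, this, (h2 k hk).2]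
  norm_num

lemma Rep.fl {G : ℕ} {v : PV} {f : ℕ → ℤ} (h : Rep G v f) (hs : v.small = true) :
    Rep G (v.fl (rp 730750818665451459101842416358141509827966271488 G) (rp 22300745198530623141535718272648361505980415 G) (rp 11150372599265311570767859136324180752990208 G)) fun k => f k / 65536 := by
  obtain ⟨e, h2⟩ := h.bias hs
  refine ⟨?_, fun k hk => ?_⟩
  · simp only [PV.fl]
    rw [e, Int.subNatNat_eq_coe]
    change (((_ >>> 16) &&& _ : ℕ) : ℤ) - _ = _
    rw [Nat.shiftRight_eq_div_pow, rp_eq, rp_eq, show (22300745198530623141535718272648361505980415 : ℕ) = 2 ^ 144 - 1 by norm_num,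
      ns_shift fun j hj => (h2 j hj).1]
    simp only [ns, Nat.cast_sum, Nat.cast_mul, ← sum_sub_distrib]
    refine sum_congr rfl fun k hk => ?_
    rw [Int.natCast_ediv, (h2 k (mem_range.1 hk)).2]
    have : (f k + 2 ^ 159) / ((2 ^ 16 : ℕ) : ℤ) = f k / 65536 + 11150372599265311570767859136324180752990208 := by omega
    rw [this]; push_cast; ring
  · have := h.2 k hk
    change (f k / 65536).natAbs ≤ v.u / 65536 + 1
    clear e h2
    omega

end Pool.Agent.MP_3bf126_pr.H40
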