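import Mathlib

/-! Robbins' problem: value function with a list of past values, one-step inequality. -/

namespace Pool.Agent.MP_3bf126_pr.H40
open MeasureTheory Set
open scoped ENNReal
noncomputable section

def U : Measure ℝ := volume.restrict (Icc 0 1)

instance instProbU : IsProbabilityMeasure U := ⟨by simp [U]⟩

def Pn (r : ℕ) : Measure (Fin r → ℝ) := Measure.pi fun _ => U

instance instProbPn (r : ℕ) : IsProbabilityMeasure (Pn r) := by unfold Pn; infer_instance

structure Rule (r : ℕ) where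
  τ : (Fin r → ℝ) → Fin r
  meas : Measurable τ
  adapt : ∀ s s' : Fin r → ℝ, (∀ i ≤ τ s, s i = s' i) → τ s' = τ s

def ind (y v : ℝ) : ℝ≥0∞ := if y < v then 1 else 0

def cnt (η : List ℝ) (y : ℝ) : ℝ≥0∞ := (η.map fun v => ind y v).sum

def loss {r : ℕ} (η : List ℝ) (T : Rule r) (s : Fin r → ℝ) : ℝ≥0∞ :=
  1 + ∑ j, ind (s (T.τ s)) (s j) + cnt η (s (T.τ s))

def Val (r : ℕ) (η : List ℝ) : ℝ≥0∞ := ⨅ T : Rule r, ∫⁻ s, loss η T s ∂Pn r

lemma meas_ind {α : Type*} [MeasurableSpace α] {f g : α → ℝ} (hf : Measurable f)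
    (hg : Measurable g) : Measurable fun s => ind (f s) (g s) := by
  unfold ind
  exact Measurable.ite (measurableSet_lt hf hg) measurable_const measurable_const

lemma meas_cnt {α : Type*} [MeasurableSpace α] {f : α → ℝ} (hf : Measurable f) (η : List ℝ) :
    Measurable fun s => cnt η (f s) := by
  induction η with
  | nil => simp [cnt]
  | cons v η ih =>
    simp only [cnt, List.map_cons, List.sum_cons]
    exact (meas_ind hf measurable_const).add ih

lemma meas_sel {r : ℕ} (T : Rule r) : Measurable fun s : Fin r → ℝ => s (T.τ s) := by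
  have h : Measurable fun p : (Fin r → ℝ) × Fin r => p.1 p.2 :=
    measurable_from_prod_countable_left fun i => measurable_pi_apply i
  exact h.comp (measurable_id.prodMk T.meas)

lemma meas_loss {r : ℕ} (η : List ℝ) (T : Rule r) : Measurable (loss η T) := by
  unfold loss
  refine (measurable_const.add ?_).add (meas_cnt (meas_sel T) η)
  exact Finset.measurable_sum _ fun j _ => meas_ind (meas_sel T) (measurable_pi_apply j)

lemma U_Ioi {y : ℝ} (h0 : 0 ≤ y) : U (Ioi y) = ENNReal.ofReal (1 - y) := by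
  have : Ioi y ∩ Icc 0 1 = Ioc y 1 := by
    ext x; simp only [mem_inter_iff, mem_Ioi, mem_Icc, mem_Ioc]
    constructor
    · rintro ⟨h1, _, h3⟩; exact ⟨h1, h3⟩
    · rintro ⟨h1, h3⟩; exact ⟨h1, by linarith, h3⟩
  rw [U, Measure.restrict_apply measurableSet_Ioi, this, Real.volume_Ioc]

lemma U_Iio {y : ℝ} (h1 : y ≤ 1) : U (Iio y) = ENNReal.ofReal y := by
  have : Iio y ∩ Icc 0 1 = Ico 0 y := by
    ext x; simp only [mem_inter_iff, mem_Iio, mem_Icc, mem_Ico]
    constructor
    · rintro ⟨h1, h2, _⟩; exact ⟨h2, h1⟩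
    · rintro ⟨h2, h3⟩; exact ⟨h3, h2, by linarith⟩
  rw [U, Measure.restrict_apply measurableSet_Iio, this, Real.volume_Ico, sub_zero]

lemma lint_ind_eval {r : ℕ} (j : Fin r) {y : ℝ} (h0 : 0 ≤ y) :
    ∫⁻ w, ind y (w j) ∂Pn r = ENNReal.ofReal (1 - y) := by
  have hm : MeasurePreserving (Function.eval j) (Pn r) U := measurePreserving_eval (fun _ => U) j
  have h1 : ∫⁻ w, ind y (w j) ∂Pn r = ∫⁻ v, ind y v ∂U :=
    hm.lintegral_comp (f := fun v => ind y v) (meas_ind measurable_const measurable_id)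
  rw [h1, ← U_Ioi h0, ← lintegral_indicator_one measurableSet_Ioi]
  refine lintegral_congr fun v => ?_
  simp [ind, indicator]

def Acc (r : ℕ) (η : List ℝ) (y : ℝ) : ℝ≥0∞ := 1 + r * ENNReal.ofReal (1 - y) + cnt η y

/-- the continuation rule after rejecting the first value `y` -/
def Rule.tail {r : ℕ} (T : Rule (r + 2)) (y : ℝ) (h : ∀ w, T.τ (Fin.cons y w) ≠ 0) :
    Rule (r + 1) where
  τ w := Fin.predAbove 0 (T.τ (Fin.cons y w))
  meas := by
    have h1 : Measurable fun w : Fin (r + 1) → ℝ => (Fin.cons y w : Fin (r + 2) → ℝ) := by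
      refine measurable_pi_iff.2 fun i => ?_
      refine Fin.cases ?_ (fun j => ?_) i
      · simp
      · simpa using measurable_pi_apply j
    exact (Measurable.of_discrete (f := fun i : Fin (r + 2) => Fin.predAbove (0 : Fin (r + 1)) i)).comp
      (T.meas.comp h1)
  adapt := by
    intro w w' hw
    have := T.adapt (Fin.cons y w) (Fin.cons y w') (by
      intro i hi
      refine Fin.cases (fun _ => by simp) (fun j hj => ?_) i hi
      simp only [Fin.cons_succ]
      apply hw
      rw [← Fin.succ_predAbove_zero (h w)] at hj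
      exact Fin.succ_le_succ_iff.1 hj)
    rw [this]

lemma inner_ge {r : ℕ} (η : List ℝ) (T : Rule (r + 2)) {y : ℝ} (h0 : 0 ≤ y) :
    min (Acc (r + 1) η y) (Val (r + 1) (y :: η)) ≤ ∫⁻ w, loss η T (Fin.cons y w) ∂Pn (r + 1) := by
  by_cases h : ∀ w, T.τ (Fin.cons y w) ≠ 0
  · refine (min_le_right _ _).trans ((iInf_le _ (T.tail y h)).trans (le_of_eq ?_))
    refine lintegral_congr fun w => ?_
    have e : (Fin.cons y w : Fin (r + 2) → ℝ) (T.τ (Fin.cons y w)) = w ((T.tail y h).τ w) := by
      conv_lhs => rw [← Fin.succ_predAbove_zero (h w)]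
      rfl
    simp only [loss, e, cnt, List.map_cons, List.sum_cons]
    rw [Fin.sum_univ_succ (n := r + 1)]
    simp only [Fin.cons_zero, Fin.cons_succ]
    ring
  · push Not at h
    obtain ⟨w0, hw0⟩ := h
    have h1 : ∀ w, T.τ (Fin.cons y w) = 0 := fun w => by
      rw [← hw0]
      apply T.adapt
      intro i hi
      rw [hw0] at hi
      have : i = 0 := Fin.le_zero_iff.1 hi
      subst this; simp
    refine (min_le_left _ _).trans (le_of_eq ?_)
    have e : ∀ w : Fin (r + 1) → ℝ, loss η T (Fin.cons y w) =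
        (1 + cnt η y) + ∑ j : Fin (r + 1), ind y (w j) := fun w => by
      simp only [loss, h1 w, Fin.cons_zero]
      rw [Fin.sum_univ_succ (n := r + 1)]
      simp only [Fin.cons_zero, Fin.cons_succ]
      have : ind y y = 0 := by simp [ind]
      rw [this]; ring
    simp only [e]
    rw [lintegral_add_left measurable_const,
      lintegral_finsetSum _ fun j _ => meas_ind measurable_const (measurable_pi_apply j)]
    simp only [lint_ind_eval _ h0, lintegral_const, measure_univ, mul_one, Finset.sum_const,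
      Finset.card_univ, Fintype.card_fin, nsmul_eq_mul, Acc]
    ring

lemma step_ge {r : ℕ} (η : List ℝ) :
    ∫⁻ y, min (Acc (r + 1) η y) (Val (r + 1) (y :: η)) ∂U ≤ Val (r + 2) η := by
  refine le_iInf fun T => ?_
  have hm := (measurePreserving_piFinSuccAbove (fun _ : Fin (r + 2) => U) 0).symm
  have e := hm.lintegral_comp (meas_loss η T)
  change _ ≤ ∫⁻ s, loss η T s ∂(Measure.pi fun _ => U)
  have hme : Measurable fun a : ℝ × (Fin (r + 1) → ℝ) =>
      loss η T ((MeasurableEquiv.piFinSuccAbove (fun _ => ℝ) 0).symm a) :=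
    (meas_loss η T).comp hm.measurable
  rw [← e, lintegral_prod _ hme.aemeasurable]
  refine lintegral_mono_ae ?_
  have : ∀ᵐ y ∂U, y ∈ Icc (0 : ℝ) 1 := ae_restrict_mem measurableSet_Icc
  filter_upwards [this] with y hy
  refine (inner_ge η T hy.1).trans (le_of_eq ?_)
  refine lintegral_congr fun w => ?_
  congr 1
  simp [MeasurableEquiv.piFinSuccAbove, Fin.insertNthEquiv]

lemma Val_mono (r : ℕ) (η : List ℝ) {y y' : ℝ} (h : y ≤ y') : Val r (y :: η) ≤ Val r (y' :: η) := by
  refine iInf_mono fun T => lintegral_mono fun s => ?_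
  simp only [loss, cnt, List.map_cons, List.sum_cons]
  gcongr
  unfold ind
  split_ifs with h1 h2
  · rfl
  · exact absurd (h1.trans_le h) h2
  · simp
  · rfl

lemma Val_cons (r : ℕ) (η : List ℝ) {v : ℝ} (h0 : 0 ≤ v) (h1 : v ≤ 1) :
    Val r η + ENNReal.ofReal (v ^ r) ≤ Val r (v :: η) := by
  refine le_iInf fun T => ?_
  have hP : Pn r (Set.pi univ fun _ => Iio v) = ENNReal.ofReal (v ^ r) := by
    rw [Pn, Measure.pi_pi]
    simp [U_Iio h1, ENNReal.ofReal_pow h0]
  have hms : MeasurableSet (Set.pi univ fun _ : Fin r => Iio v) :=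
    MeasurableSet.univ_pi fun _ => measurableSet_Iio
  calc Val r η + ENNReal.ofReal (v ^ r)
      ≤ ∫⁻ s, loss η T s ∂Pn r + ∫⁻ s, (Set.pi univ fun _ => Iio v).indicator 1 s ∂Pn r := by
        rw [lintegral_indicator_one hms, hP]
        gcongr
        exact iInf_le _ T
    _ ≤ ∫⁻ s, (loss η T s + (Set.pi univ fun _ => Iio v).indicator 1 s) ∂Pn r := le_lintegral_add _ _
    _ ≤ _ := by
        refine lintegral_mono fun s => ?_
        simp only [loss, cnt, List.map_cons, List.sum_cons]
        rw [add_comm (ind _ v), ← add_assoc]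
        gcongr
        by_cases hs : s ∈ Set.pi univ fun _ : Fin r => Iio v
        · have : s (T.τ s) < v := hs _ (mem_univ _)
          simp [indicator, hs, ind, this]
        · simp [indicator, hs]

lemma Val_list (r : ℕ) (η : List ℝ) (h : ∀ v ∈ η, 0 ≤ v ∧ v ≤ 1) :
    Val r [] + ENNReal.ofReal ((η.map fun v => v ^ r).sum) ≤ Val r η := by
  induction η with
  | nil => simp
  | cons v η ih =>
    have hv := h v (by simp)
    have ih' := ih fun u hu => h u (by simp [hu])
    refine le_trans ?_ (Val_cons r η hv.1 hv.2)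
    simp only [List.map_cons, List.sum_cons]
    calc Val r [] + ENNReal.ofReal (v ^ r + (η.map fun v => v ^ r).sum)
        ≤ Val r [] + (ENNReal.ofReal (v ^ r) + ENNReal.ofReal ((η.map fun v => v ^ r).sum)) := by
          gcongr; exact ENNReal.ofReal_add_le
      _ = (Val r [] + ENNReal.ofReal ((η.map fun v => v ^ r).sum)) + ENNReal.ofReal (v ^ r) := by ring
      _ ≤ _ := by gcongr

lemma one_le_Val (r : ℕ) (η : List ℝ) : 1 ≤ Val r η := by
  refine le_iInf fun T => ?_
  calc (1 : ℝ≥0∞) = ∫⁻ _s, 1 ∂Pn r := by simp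
    _ ≤ _ := lintegral_mono fun s => by
      unfold loss
      rw [add_assoc]; exact le_self_add

end
end Pool.Agent.MP_3bf126_pr.H40
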