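import Pool.Agent.MP_3bf126_pr.H40.Step

/-! Piecewise quadratic functionals of the list of past values. -/

namespace Pool.Agent.MP_3bf126_pr.H40
open MeasureTheory Finset
open scoped ENNReal
noncomputable section

structure Grid where
  G : ℕ
  a : ℕ → ℝ
  a0 : a 0 = 0
  inc : ∀ b < G, a b < a (b + 1)

structure Node where
  c : ℝ
  pL : ℕ → ℝ
  pR : ℕ → ℝ
  K : ℕ → ℕ → ℝ

namespace Grid
variable (g : Grid)

lemma mono {b b' : ℕ} (h : b ≤ b') (h' : b' ≤ g.G) : g.a b ≤ g.a b' := by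
  induction b', h using Nat.le_induction with
  | base => rfl
  | succ k hk ih => exact (ih (by omega)).trans (g.inc k (by omega)).le

lemma nonneg {b : ℕ} (h : b ≤ g.G) : 0 ≤ g.a b := g.a0 ▸ g.mono (Nat.zero_le b) h

open Classical in
def bin (x : ℝ) : ℕ := Nat.findGreatest (fun b => g.a b ≤ x) g.G

def h (b : ℕ) : ℝ := g.a (b + 1) - g.a b

lemma h_pos {b : ℕ} (hb : b < g.G) : 0 < g.h b := sub_pos.2 (g.inc b hb)

lemma bin_le (x : ℝ) : g.bin x ≤ g.G := Nat.findGreatest_le _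

lemma le_bin {x : ℝ} (hx : 0 ≤ x) : g.a (g.bin x) ≤ x := by
  classical
  exact Nat.findGreatest_spec (P := fun b => g.a b ≤ x) (Nat.zero_le _) (by simpa [g.a0] using hx)

lemma lt_bin {x : ℝ} (hb : g.bin x < g.G) : x < g.a (g.bin x + 1) := by
  classical
  exact not_le.1 (Nat.findGreatest_is_greatest (P := fun b => g.a b ≤ x) (Nat.lt_succ_self _) hb)

lemma bin_far {x : ℝ} (hx : g.a g.G ≤ x) : g.bin x = g.G := by
  classical
  exact Nat.findGreatest_eq (P := fun b => g.a b ≤ x) hx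

lemma bin_eq {x : ℝ} {b : ℕ} (hb : b < g.G) (h1 : g.a b ≤ x) (h2 : x < g.a (b + 1)) : g.bin x = b := by
  classical
  have h3 : b ≤ g.bin x := Nat.le_findGreatest (P := fun b => g.a b ≤ x) hb.le h1
  by_contra hne
  have h4 : b + 1 ≤ g.bin x := by omega
  have := (g.mono h4 (g.bin_le x)).trans (g.le_bin ((g.nonneg hb.le).trans h1))
  linarith

def fr (x : ℝ) : ℝ := (x - g.a (g.bin x)) / g.h (g.bin x)

lemma fr_mem {x : ℝ} (hx : 0 ≤ x) (hb : g.bin x < g.G) : 0 ≤ g.fr x ∧ g.fr x ≤ 1 := by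
  have h1 := g.le_bin hx
  have h2 := g.lt_bin hb
  have h3 := g.h_pos hb
  refine ⟨div_nonneg (by linarith) h3.le, (div_le_one h3).2 ?_⟩
  unfold h; linarith

lemma fr_mul {x : ℝ} (hb : g.bin x < g.G) : g.fr x * g.h (g.bin x) = x - g.a (g.bin x) :=
  div_mul_cancel₀ _ (g.h_pos hb).ne'

def aL (ξ : List ℝ) (b : ℕ) : ℝ := (ξ.map fun x => if g.bin x = b then 1 - g.fr x else 0).sum
def aR (ξ : List ℝ) (b : ℕ) : ℝ := (ξ.map fun x => if g.bin x = b then g.fr x else 0).sum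
def N (ξ : List ℝ) (b : ℕ) : ℝ := g.aL ξ b + g.aR ξ b
def dot (f u : ℕ → ℝ) : ℝ := ∑ b ∈ range g.G, f b * u b
def Q (K : ℕ → ℕ → ℝ) (N : ℕ → ℝ) : ℝ := ∑ b ∈ range g.G, ∑ b' ∈ range g.G, K b b' * N b * N b'
def D (f u : ℕ → ℝ) (ξ : List ℝ) : ℝ := g.dot f (g.aL ξ) + g.dot u (g.aR ξ)
def pt (f u : ℕ → ℝ) (x : ℝ) : ℝ :=
  if g.bin x < g.G then f (g.bin x) * (1 - g.fr x) + u (g.bin x) * g.fr x else 0
def W (nd : Node) (ξ : List ℝ) : ℝ := nd.c + g.D nd.pL nd.pR ξ - g.Q nd.K (g.N ξ)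

lemma aL_nonneg {ξ : List ℝ} (hξ : ∀ x ∈ ξ, 0 ≤ x) {b : ℕ} (hb : b < g.G) : 0 ≤ g.aL ξ b := by
  refine List.sum_nonneg fun y hy => ?_
  obtain ⟨x, hx, rfl⟩ := List.mem_map.1 hy
  split_ifs with h1
  · have := (g.fr_mem (hξ x hx) (h1 ▸ hb)).2; linarith
  · rfl

lemma aR_nonneg {ξ : List ℝ} (hξ : ∀ x ∈ ξ, 0 ≤ x) {b : ℕ} (hb : b < g.G) : 0 ≤ g.aR ξ b := by
  refine List.sum_nonneg fun y hy => ?_
  obtain ⟨x, hx, rfl⟩ := List.mem_map.1 hy
  split_ifs with h1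
  · exact (g.fr_mem (hξ x hx) (h1 ▸ hb)).1
  · rfl

lemma sum_ite_bin (f : ℕ → ℝ) (k : ℕ) (t : ℝ) :
    ∑ b ∈ range g.G, f b * (if k = b then t else 0) = if k < g.G then f k * t else 0 := by
  simp [Finset.sum_ite_eq]

lemma D_nil (f u : ℕ → ℝ) : g.D f u [] = 0 := by simp [D, dot, aL, aR]

lemma D_cons (f u : ℕ → ℝ) (x : ℝ) (ξ : List ℝ) : g.D f u (x :: ξ) = g.pt f u x + g.D f u ξ := by
  simp only [D, dot, aL, aR, List.map_cons, List.sum_cons, mul_add, sum_add_distrib, sum_ite_bin, pt]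
  split_ifs <;> ring

lemma D_le2 (f u f' u' : ℕ → ℝ) (p q : ℝ) (F : ℝ → ℝ) (ξ : List ℝ)
    (h : ∀ x ∈ ξ, p * g.pt f u x + q * g.pt f' u' x ≤ F x) :
    p * g.D f u ξ + q * g.D f' u' ξ ≤ (ξ.map F).sum := by
  induction ξ with
  | nil => simp [D_nil]
  | cons x ξ ih =>
    have h1 := h x (by simp)
    have h2 := ih fun y hy => h y (by simp [hy])
    simp only [D_cons, List.map_cons, List.sum_cons]
    linarith

lemma N_cons (x : ℝ) (ξ : List ℝ) (b : ℕ) :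
    g.N (x :: ξ) b = (if g.bin x = b then 1 else 0) + g.N ξ b := by
  simp only [N, aL, aR, List.map_cons, List.sum_cons]
  split_ifs <;> ring

def Sym (K : ℕ → ℕ → ℝ) : Prop := ∀ b < g.G, ∀ b' < g.G, K b b' = K b' b

lemma Q_add {K : ℕ → ℕ → ℝ} (hK : g.Sym K) (u v : ℕ → ℝ) :
    g.Q K (fun b => u b + v b) = g.Q K u + 2 * g.dot u (fun b => g.dot (K b) v) + g.Q K v := by
  have e : ∑ b ∈ range g.G, ∑ b' ∈ range g.G, K b b' * v b * u b' =
      ∑ b ∈ range g.G, ∑ b' ∈ range g.G, K b b' * u b * v b' := by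
    rw [sum_comm]
    refine sum_congr rfl fun b hb => sum_congr rfl fun b' hb' => ?_
    rw [hK b' (mem_range.1 hb') b (mem_range.1 hb)]; ring
  have e2 : g.dot u (fun b => g.dot (K b) v) =
      ∑ b ∈ range g.G, ∑ b' ∈ range g.G, K b b' * u b * v b' := by
    simp only [dot, mul_sum]
    exact sum_congr rfl fun b _ => sum_congr rfl fun b' _ => by ring
  rw [e2, two_mul]
  nth_rewrite 2 [← e]
  simp only [Q, ← sum_add_distrib]
  exact sum_congr rfl fun b _ => sum_congr rfl fun b' _ => by ring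

def kap (nd : Node) (ξ : List ℝ) (b : ℕ) : ℝ := 2 * g.dot (nd.K b) (g.N ξ) + nd.K b b

lemma W_cons {nd : Node} (hK : g.Sym nd.K) (x : ℝ) (ξ : List ℝ) :
    g.W nd (x :: ξ) = g.W nd ξ + g.pt nd.pL nd.pR x -
      if g.bin x < g.G then g.kap nd ξ (g.bin x) else 0 := by
  have e : g.N (x :: ξ) = fun b => (if g.bin x = b then 1 else 0) + g.N ξ b := funext (g.N_cons x ξ)
  simp only [W, D_cons, e, g.Q_add hK, kap]
  have e1 : g.Q nd.K (fun b => if g.bin x = b then 1 else 0) =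
      if g.bin x < g.G then nd.K (g.bin x) (g.bin x) else 0 := by
    simp only [Q, sum_ite_bin]
    split_ifs with h1
    · simp [h1]
    · simp
  have e2 : g.dot (fun b => if g.bin x = b then 1 else 0) (fun b => g.dot (nd.K b) (g.N ξ)) =
      if g.bin x < g.G then g.dot (nd.K (g.bin x)) (g.N ξ) else 0 := by
    rw [dot]; simp [Finset.sum_ite_eq]
  rw [e1, e2]
  split_ifs <;> ring

lemma W_far {nd : Node} (hK : g.Sym nd.K) {x : ℝ} (hx : g.a g.G ≤ x) (ξ : List ℝ) :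
    g.W nd (x :: ξ) = g.W nd ξ := by
  simp [g.W_cons hK, pt, g.bin_far hx]

def T (nd : Node) (ξ : List ℝ) (i : ℕ) : ℝ :=
  ∑ b ∈ Ico i g.G, g.h b * ((nd.pL b + nd.pR b) / 2 - g.kap nd ξ b)

lemma hasI_bin {nd : Node} (hK : g.Sym nd.K) (ξ : List ℝ) {i : ℕ} (hi : i < g.G) {θ : ℝ}
    (h1 : g.a i ≤ θ) (h2 : θ ≤ g.a (i + 1)) :
    HasI (fun x => g.W nd (x :: ξ)) θ (g.a (i + 1))
      ((g.a (i + 1) - θ) * (g.W nd ξ + nd.pL i - g.kap nd ξ i) +
        (nd.pR i - nd.pL i) * (g.h i ^ 2 - (θ - g.a i) ^ 2) / (2 * g.h i)) := by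
  have hp := g.h_pos hi
  refine ((hasI_lin (g.W nd ξ + nd.pL i - g.kap nd ξ i - (nd.pR i - nd.pL i) / g.h i * g.a i)
    ((nd.pR i - nd.pL i) / g.h i) θ (g.a (i + 1))).congr h2 fun x hx1 hx2 => ?_).eq ?_
  · have hb := g.bin_eq hi (h1.trans hx1.le) hx2
    simp only [g.W_cons hK, pt, fr, hb, hi, if_true]
    field_simp; ring
  · have : g.a (i + 1) = g.a i + g.h i := by simp [h]
    rw [this]; field_simp; ring

lemma hasI_node {nd : Node} (hK : g.Sym nd.K) (ξ : List ℝ) {i : ℕ} (hi : i ≤ g.G) :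
    HasI (fun x => g.W nd (x :: ξ)) (g.a i) (g.a g.G) ((g.a g.G - g.a i) * g.W nd ξ + g.T nd ξ i) := by
  induction hi using Nat.decreasingInduction with
  | self => exact ((hasI_const 0 _ _).congr le_rfl fun x h1 h2 => by linarith).eq (by simp [T])
  | of_succ k hk ih =>
    have hp := g.h_pos hk
    refine ((g.hasI_bin hK ξ hk le_rfl (g.inc k hk).le).trans ih).eq ?_
    simp only [T]
    rw [sum_eq_sum_Ico_succ_bot hk]
    have : g.a (k + 1) = g.a k + g.h k := by simp [h]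
    rw [this]; field_simp; ring

def rL (ω : ℕ → ℝ) (i b : ℕ) : ℝ :=
  if b + 1 < i then g.a i - g.a b else if b + 1 = i then ω b * (g.a i - g.a b) else 0
def rR (ω : ℕ → ℝ) (ic i b : ℕ) : ℝ :=
  if b + 1 < i then g.a i - g.a (b + 1) else if b = i ∧ i < ic then -(ω b * g.h b) else 0

lemma ramp_pt (ω : ℕ → ℝ) (ic i : ℕ) {x : ℝ} (hb : g.bin x < g.G) :
    g.pt (g.rL ω i) (g.rR ω ic i) x =
      if g.bin x + 1 < i then g.a i - x
      else if g.bin x + 1 = i ∨ (g.bin x = i ∧ i < ic) then ω (g.bin x) * (g.a i - x) else 0 := by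
  have e := g.fr_mul hb
  simp only [pt, hb, if_true, rL, rR]
  set b := g.bin x
  have e2 : g.h b = g.a (b + 1) - g.a b := rfl
  by_cases h1 : b + 1 < i
  · simp only [h1, if_true]; rw [e2] at e; linear_combination (-1) * e
  · by_cases h2 : b + 1 = i
    · have h3 : ¬ (b = i ∧ i < ic) := by omega
      simp only [h2, h3, if_true, if_false, true_or, lt_irrefl]
      rw [e2, h2] at e; linear_combination (-ω b) * e
    · by_cases h3 : b = i ∧ i < ic
      · simp only [h1, h2, if_false, h3.2, and_true, false_or]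
        simp only [h3.1, if_true]
        rw [h3.1] at e; linear_combination (-ω i) * e
      · simp only [h1, h2, h3, if_false, or_self]; ring

lemma ramp_le (ω : ℕ → ℝ) (hω : ∀ b, 0 ≤ ω b ∧ ω b ≤ 1) {ic i : ℕ} (hi : i < ic)
    {t x : ℝ} (ht0 : 0 ≤ t) (ht1 : t ≤ 1) (hx : 0 ≤ x) :
    (1 - t) * g.pt (g.rL ω i) (g.rR ω ic i) x + t * g.pt (g.rL ω (i + 1)) (g.rR ω ic (i + 1)) x ≤
      max ((1 - t) * g.a i + t * g.a (i + 1) - x) 0 := by
  by_cases hb : g.bin x < g.G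
  · rw [g.ramp_pt ω ic i hb, g.ramp_pt ω ic (i + 1) hb]
    have h1 := g.le_bin hx
    have h2 := g.lt_bin hb
    have hw := hω (g.bin x)
    set b := g.bin x
    rcases lt_trichotomy (b + 1) i with h3 | h3 | h3
    · rw [if_pos h3, if_pos (by omega)]
      exact le_max_of_le_left (by linarith)
    · rw [if_neg (by omega), if_pos (Or.inl h3), if_pos (by omega)]
      rw [h3] at h2
      refine le_max_of_le_left ?_
      have : ω b * (g.a i - x) ≤ g.a i - x := by nlinarith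
      nlinarith
    · rw [if_neg (by omega), if_neg (by omega : ¬ b + 1 < i + 1)]
      by_cases h4 : b = i
      · rw [if_pos (Or.inr ⟨h4, hi⟩), if_pos (Or.inl (by omega))]
        have e : (1 - t) * (ω b * (g.a i - x)) + t * (ω b * (g.a (i + 1) - x)) =
          ω b * ((1 - t) * g.a i + t * g.a (i + 1) - x) := by ring
        rw [e]
        rcases le_total 0 ((1 - t) * g.a i + t * g.a (i + 1) - x) with h5 | h5
        · exact le_max_of_le_left (by nlinarith)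
        · exact le_max_of_le_right (by nlinarith)
      · rw [if_neg (by omega)]
        refine le_max_of_le_right ?_
        split_ifs with h5
        · have h6 : b = i + 1 := by omega
          rw [h6] at h1
          have : ω b * (g.a (i + 1) - x) ≤ 0 := by nlinarith
          nlinarith
        · simp
  · simp [pt, hb]

lemma exists_cell {ic : ℕ} (h0 : 0 < ic) (hic : ic ≤ g.G) {θ : ℝ} (h1 : 0 ≤ θ) (h2 : θ ≤ g.a ic) :
    ∃ i < ic, g.a i ≤ θ ∧ θ ≤ g.a (i + 1) := by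
  by_cases hb : g.bin θ < ic
  · exact ⟨_, hb, g.le_bin h1, (g.lt_bin (by omega)).le⟩
  · refine ⟨ic - 1, by omega, ?_, by rwa [Nat.sub_add_cancel h0]⟩
    exact (g.mono (by omega) (g.bin_le θ)).trans (g.le_bin h1)

/-- the generator at the node `θ = a i` -/
def En (nd : Node) (s cs : ℝ) (psL psR ω cr lam : ℕ → ℝ) (ic i : ℕ) (ξ : List ℝ) : ℝ :=
  g.a i + s * g.a i ^ 2 / 2 - cr i + g.D (g.rL ω i) (g.rR ω ic i) ξ - (g.a i + lam i) * g.W nd ξ +
    lam i * (cs + g.D psL psR ξ) + g.T nd ξ i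

def CrOK (nd : Node) (s : ℝ) (cr : ℕ → ℝ) (ic : ℕ) : Prop :=
  ∀ i < ic, 0 ≤ cr i ∧ 0 ≤ cr (i + 1) ∧
    (s * g.h i ^ 2 - (nd.pR i - nd.pL i) * g.h i) / 8 ≤ cr i ∧
    (s * g.h i ^ 2 - (nd.pR i - nd.pL i) * g.h i) / 8 ≤ cr (i + 1)

lemma interp {nd : Node} (hK : g.Sym nd.K) (s cs : ℝ) (psL psR ω cr lam : ℕ → ℝ) {ic i : ℕ}
    (hω : ∀ b, 0 ≤ ω b ∧ ω b ≤ 1) (hi : i < ic) (hic : ic ≤ g.G) (hcr : g.CrOK nd s cr ic)
    {t : ℝ} (ht0 : 0 ≤ t) (ht1 : t ≤ 1) {ξ : List ℝ} (hξ : ∀ x ∈ ξ, 0 ≤ x) (θ : ℝ)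
    (hθ : θ = (1 - t) * g.a i + t * g.a (i + 1)) :
    ∃ I, HasI (fun x => g.W nd (x :: ξ)) θ (g.a g.G) I ∧
      (1 - t) * g.En nd s cs psL psR ω cr lam ic i ξ + t * g.En nd s cs psL psR ω cr lam ic (i + 1) ξ ≤
      θ + s * θ ^ 2 / 2 + pos ξ θ + I - g.a g.G * g.W nd ξ -
        ((1 - t) * lam i + t * lam (i + 1)) * (g.W nd ξ - (cs + g.D psL psR ξ)) := by
  have hG : i < g.G := by omega
  have hp := g.h_pos hG
  have e : g.a (i + 1) = g.a i + g.h i := by simp [h]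
  have h1 : g.a i ≤ θ := by rw [hθ, e]; nlinarith
  have h2 : θ ≤ g.a (i + 1) := by rw [hθ, e]; nlinarith
  refine ⟨_, (g.hasI_bin hK ξ hG h1 h2).trans (g.hasI_node hK ξ hG), ?_⟩
  have h3 := g.D_le2 _ _ _ _ (1 - t) t (fun x => max (θ - x) 0) ξ fun x hx => by
    rw [hθ]; exact g.ramp_le ω hω hi ht0 ht1 (hξ x hx)
  obtain ⟨c1, c2, c3, c4⟩ := hcr i hi
  have h4 : t * (1 - t) * (s * g.h i ^ 2 - (nd.pR i - nd.pL i) * g.h i) / 2 ≤
      (1 - t) * cr i + t * cr (i + 1) := by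
    set k := s * g.h i ^ 2 - (nd.pR i - nd.pL i) * g.h i
    have h5 : t * (1 - t) ≤ 1 / 4 := by nlinarith [sq_nonneg (t - 1 / 2)]
    have h6 : 0 ≤ t * (1 - t) := by nlinarith
    rcases le_total 0 k with hk | hk
    · nlinarith
    · nlinarith
  have e1 : g.T nd ξ i = g.h i * ((nd.pL i + nd.pR i) / 2 - g.kap nd ξ i) + g.T nd ξ (i + 1) := by
    simp only [T]; rw [sum_eq_sum_Ico_succ_bot hG]
  have e2 : (nd.pR i - nd.pL i) * (g.h i ^ 2 - (θ - g.a i) ^ 2) / (2 * g.h i) =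
      (nd.pR i - nd.pL i) * (1 - t ^ 2) * g.h i / 2 := by
    rw [hθ, e]; field_simp; ring
  rw [e2]
  simp only [En, e1, pos]
  rw [hθ, e] at *
  nlinarith [h3, h4]

end Grid
end
end Pool.Agent.MP_3bf126_pr.H40
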