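import Pool.Agent.MP_3bf126_pr.H40.Lists
import Pool.Agent.MP_3bf126_pr.H40.Alg

/-! Soundness of the node checks. -/

namespace Pool.Agent.MP_3bf126_pr.H40
open Finset
noncomputable section

structure ComOK (g : Grid) (cm : Com) (n0 n1 : Node) (Δ γ cs : ℝ) (V : ℕ → ℕ → ℝ) (m : ℕ → ℝ) :
    Prop where
  bias : cm.bias = rp 730750818665451459101842416358141509827966271488 g.G
  Vp : ∀ r < cm.Vp.length, RepR g.G (cm.Vp.getD r PV.zero) fun k => 2 ^ 30 * V r k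
  Km : RepR g.G cm.Km fun b => 2 ^ 70 * g.dot (n1.K b) m
  Kmm : (cm.Kmm : ℝ) = 2 ^ 80 * g.dot m fun b => g.dot (n1.K b) m
  gam : (cm.gam : ℝ) = 2 ^ 16 * γ
  D : (cm.D : ℝ) = 2 ^ 18 * Δ
  cs : (cm.cs : ℝ) = 2 ^ 44 * cs
  dL : RepR g.G cm.dL fun b => 2 ^ 112 * (n1.pL b - n0.pL b)
  dR : RepR g.G cm.dR fun b => 2 ^ 112 * (n1.pR b - n0.pR b)
  dc : (cm.dc : ℝ) = 2 ^ 122 * (n1.c - n0.c)
  upd : ∀ N, γ * g.Q n1.K N + ∑ r ∈ range cm.Vp.length, g.dot (V r) N ^ 2 ≤ g.Q n0.K N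
  sym : g.Sym n1.K
  psd : g.Psd n1.K

structure SideOK (g : Grid) (sd : Side) (nd : Node) (s : ℝ) (f u : ℕ → ℝ) : Prop where
  S : (sd.S : ℝ) = 2 ^ 18 * s
  c : (sd.c : ℝ) = 2 ^ 44 * nd.c
  pL : RepR g.G sd.pL fun b => 2 ^ 44 * nd.pL b
  pR : RepR g.G sd.pR fun b => 2 ^ 44 * nd.pR b
  sL : RepR g.G sd.sL fun b => 2 ^ 44 * f b
  sR : RepR g.G sd.sR fun b => 2 ^ 44 * u b

lemma nn_of_mul {P x y : ℝ} (hP : 0 < P) (h : 0 ≤ y) (e : y = P * x) : 0 ≤ x :=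
  (mul_nonneg_iff_of_pos_left hP).1 (e ▸ h)

lemma side_sound {g : Grid} {cm : Com} {sd : Side} {n0 n1 nd : Node} {Δ γ cs s : ℝ} {V : ℕ → ℕ → ℝ}
    {m f u ω cr lam : ℕ → ℝ} {ic i : ℕ} (hc : ComOK g cm n0 n1 Δ γ cs V m) (hs : SideOK g sd nd s f u)
    {aq aq' A l : ℤ} {rL rR cum : PV} {Phi dg e : ℤ} {z : List ℤ} {q q' : ℝ}
    (hq1 : (aq : ℝ) = 2 ^ 26 * q) (hq2 : (aq' : ℝ) = 2 ^ 26 * q')
    (hA : (A : ℝ) = 2 ^ 8 * g.a i) (hl : (l : ℝ) = 2 ^ 8 * lam i)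
    (hrL : RepR g.G rL fun b => 2 ^ 112 * Δ * g.rL ω i b)
    (hrR : RepR g.G rR fun b => 2 ^ 112 * Δ * g.rR ω ic i b)
    (hcum : RepR g.G cum fun b => 2 ^ 68 * g.cum nd.K i b)
    (hPhi : (Phi : ℝ) = 2 ^ 52 * g.Phi nd i) (hdg : (dg : ℝ) = 2 ^ 68 * g.dg nd.K i)
    (he : (e : ℝ) = 2 ^ 81 * cr i)
    (hq : ∀ N, g.Q n0.K N - g.Q n1.K N + Δ * (g.a i + lam i) * g.Q nd.K N =
      q * g.Q n0.K N - q' * g.Q n1.K N)
    (h : side cm sd aq aq' A l rL rR cum Phi dg e z = true) {ξ : List ℝ} (hξ : ∀ x ∈ ξ, 0 ≤ x) :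
    0 ≤ g.W n1 ξ - g.W n0 ξ + Δ * g.En nd s cs f u ω cr lam ic i ξ := by
  simp only [side, Bool.and_eq_true, zle_iff, za, zm, zs, hc.bias, sqs_eq] at h
  obtain ⟨⟨⟨⟨h1, h2⟩, h3⟩, h4⟩, h5⟩ := h
  have hcom := ((repR_comb z cm.Vp _ hc.Vp).smul (aq * 2147483648)).add
    ((hc.Km.smul (2 * (cm.gam * aq - 65536 * aq'))).add (hcum.smul (cm.D * (-134217728))))
  have hL := ((hc.dL.add (((hs.pL.smul (cm.D * (A + l) * (-4398046511104))).add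
    (hs.sL.smul (cm.D * l * 4398046511104))).add hrL)).add hcom).nonneg h4
  have hR := ((hc.dR.add (((hs.pR.smul (cm.D * (A + l) * (-4398046511104))).add
    (hs.sR.smul (cm.D * l * 4398046511104))).add hrR)).add hcom).nonneg h5
  have ez : ∀ b, ∑ r ∈ range cm.Vp.length, ((z.getD r 0 : ℤ) : ℝ) * (2 ^ 30 * V r b) =
      2 ^ 56 * ∑ r ∈ range cm.Vp.length, (z.getD r 0 : ℤ) / 2 ^ 26 * V r b := fun b => by
    rw [mul_sum]; exact sum_congr rfl fun r _ => by ring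
  have ez2 : ∑ r ∈ range cm.Vp.length, ((z.getD r 0 : ℤ) : ℝ) ^ 2 =
      2 ^ 52 * ∑ r ∈ range cm.Vp.length, (((z.getD r 0 : ℤ) : ℝ) / 2 ^ 26) ^ 2 := by
    rw [mul_sum]; exact sum_congr rfl fun r _ => by ring
  refine g.en_alg (aq := q) (aq' := q') (γ := γ) (R := cm.Vp.length) (V := V)
    (z := fun r => (z.getD r 0 : ℤ) / 2 ^ 26) (m := m) hq ?_ ?_ hc.upd hc.sym hc.psd ?_ ?_ ?_ hξ
  · exact nn_of_mul (P := 2 ^ 26) (by positivity) (show (0 : ℝ) ≤ aq by exact_mod_cast h1) hq1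
  · refine nn_of_mul (P := 2 ^ 42) (by positivity) (Int.cast_nonneg_iff.2 h2) ?_
    push_cast
    rw [hc.gam, hq1, hq2]; ring
  · refine nn_of_mul (P := 2 ^ 122) (by positivity) (Int.cast_nonneg_iff.2 h3) ?_
    push_cast
    rw [hc.gam, hq1, hq2, hc.dc, hc.D, hA, hl, hs.S, he, hc.cs, hs.c, hPhi, hdg, ez2, hc.Kmm]; ring
  · intro b hb
    refine nn_of_mul (P := 2 ^ 112) (by positivity) (hL b hb) ?_
    push_cast
    rw [hc.gam, hq1, hq2, hc.D, hA, hl, ez]; ring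
  · intro b hb
    refine nn_of_mul (P := 2 ^ 112) (by positivity) (hR b hb) ?_
    push_cast
    rw [hc.gam, hq1, hq2, hc.D, hA, hl, ez]; ring

lemma node_sound {g : Grid} {cm : Com} {s0 s1 : Side} {n0 n1 : Node} {Δ γ cs t0 t1 : ℝ} {V : ℕ → ℕ → ℝ}
    {m f0 u0 f1 u1 ω cr0 cr1 lam : ℕ → ℝ} {ic i : ℕ} (hc : ComOK g cm n0 n1 Δ γ cs V m)
    (hs0 : SideOK g s0 n0 t0 f0 u0) (hs1 : SideOK g s1 n1 t1 f1 u1) (hi : i ≤ ic) (hic : ic ≤ g.G)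
    (hG : 0 < g.G) {A l : ℤ} {RL RR c0 c1 : PV} {P0 P1 d0 d1 e0p e0 e1p e1 op oc : ℤ} {zL zR : List ℤ}
    (hA : (A : ℝ) = 2 ^ 8 * g.a i) (hl : (l : ℝ) = 2 ^ 8 * lam i)
    (hRL : RepR g.G RL fun b => if b + 1 < i then 2 ^ 16 * (g.a i - g.a b) else 0)
    (hRR : RepR g.G RR fun b => if b + 1 < i then 2 ^ 16 * (g.a i - g.a (b + 1)) else 0)
    (hop : (op : ℝ) = if i = 0 then 0 else 2 ^ 16 * (ω (i - 1) * g.h (i - 1)))
    (hoc : i < ic → (oc : ℝ) = 2 ^ 16 * (ω i * g.h i))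
    (hc0 : RepR g.G c0 fun b => 2 ^ 68 * g.cum n0.K i b)
    (hc1 : RepR g.G c1 fun b => 2 ^ 68 * g.cum n1.K i b)
    (hP0 : (P0 : ℝ) = 2 ^ 52 * g.Phi n0 i) (hP1 : (P1 : ℝ) = 2 ^ 52 * g.Phi n1 i)
    (hd0 : (d0 : ℝ) = 2 ^ 68 * g.dg n0.K i) (hd1 : (d1 : ℝ) = 2 ^ 68 * g.dg n1.K i)
    (he0 : ((if i < ic then max e0p e0 else e0p : ℤ) : ℝ) = 2 ^ 81 * cr0 i)
    (he1 : ((if i < ic then max e1p e1 else e1p : ℤ) : ℝ) = 2 ^ 81 * cr1 i)
    (h : nodeChk cm s0 s1 ic i A l RL RR c0 c1 P0 P1 d0 d1 e0p e0 e1p e1 op oc zL zR = true) :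
    0 ≤ lam i ∧ (∀ ξ : List ℝ, (∀ x ∈ ξ, 0 ≤ x) →
      0 ≤ g.W n1 ξ - g.W n0 ξ + Δ * g.En n0 t0 cs f0 u0 ω cr0 lam ic i ξ) ∧
    ∀ ξ : List ℝ, (∀ x ∈ ξ, 0 ≤ x) →
      0 ≤ g.W n1 ξ - g.W n0 ξ + Δ * g.En n1 t1 cs f1 u1 ω cr1 lam ic i ξ := by
  simp only [nodeChk, Bool.and_eq_true, zle_iff, za, zm, zs, zn, cond_blt, zmax_eq] at h
  obtain ⟨⟨h1, h2⟩, h3⟩ := h
  have hrL : RepR g.G (PV.smul (cm.D * 302231454903657293676544) (RL.add (PV.single i.pred op)))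
      fun b => 2 ^ 112 * Δ * g.rL ω i b := by
    refine ((hRL.add (repR_single (show i.pred < g.G by simp only [Nat.pred_eq_sub_one]; omega) op)).smul
      _).congr fun b _ => ?_
    push_cast
    rw [hc.D, hop]
    simp only [Grid.rL, Nat.pred_eq_sub_one]
    by_cases a1 : b + 1 < i
    · rw [if_pos a1, if_pos a1, if_neg (by omega)]; ring
    · by_cases a2 : b + 1 = i
      · subst a2
        simp only [lt_irrefl, if_false, if_true, Nat.add_sub_cancel, Nat.succ_ne_zero, Grid.h]; ring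
      · rw [if_neg a1, if_neg a1, if_neg a2]
        by_cases a3 : b = i - 1
        · rw [if_pos a3, if_pos (by omega)]; ring
        · rw [if_neg a3]; ring
  have hrR : RepR g.G (PV.smul (cm.D * 302231454903657293676544)
      (if i < ic then RR.add (PV.single i (-oc)) else RR)) fun b => 2 ^ 112 * Δ * g.rR ω ic i b := by
    by_cases a0 : i < ic
    · rw [if_pos a0]
      refine ((hRR.add (repR_single (show i < g.G by omega) (-oc))).smul _).congr fun b _ => ?_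
      push_cast
      rw [hc.D, hoc a0]
      simp only [Grid.rR, a0, and_true]
      by_cases a1 : b + 1 < i
      · rw [if_pos a1, if_pos a1, if_neg (by omega)]; ring
      · rw [if_neg a1, if_neg a1]
        by_cases a3 : b = i
        · rw [if_pos a3, if_pos a3, a3]; ring
        · rw [if_neg a3, if_neg a3]; ring
    · rw [if_neg a0]
      refine (hRR.smul _).congr fun b _ => ?_
      push_cast
      rw [hc.D]
      simp only [Grid.rR, a0, and_false, if_false]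
      split_ifs <;> ring
  refine ⟨nn_of_mul (P := 2 ^ 8) (by positivity) (Int.cast_nonneg_iff.2 h1) hl, fun ξ hξ => ?_,
    fun ξ hξ => ?_⟩
  · refine side_sound hc hs0 (q := 1 + Δ * (g.a i + lam i)) (q' := 1) ?_ (by norm_num) hA hl hrL hrR hc0
      hP0 hd0 he0 (fun N => by ring) h2 hξ
    push_cast
    rw [hc.D, hA, hl]; ring
  · refine side_sound hc hs1 (q := 1) (q' := 1 - Δ * (g.a i + lam i)) (by norm_num) ?_ hA hl hrL hrR hc1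
      hP1 hd1 he1 (fun N => by ring) h3 hξ
    push_cast
    rw [hc.D, hA, hl]; ring

end
end Pool.Agent.MP_3bf126_pr.H40
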