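import Pool.Agent.MP_3bf126_pr.H40.Side

/-! Soundness of the checker. -/

namespace Pool.Agent.MP_3bf126_pr.H40
open Finset
noncomputable section

structure GOK (g : Grid) (A : List ℤ) : Prop where
  hA : ∀ b, ((A.getD b 0 : ℤ) : ℝ) = 2 ^ 8 * g.a b

def cxOf (G : ℕ) (A : List ℤ) : Ctx := mkCtx G A (mkRL G A) (mkRR G A)

def kv (G : ℕ) (K : List PV) (b b' : ℕ) : ℤ :=
  getx (rp 730750818665451459101842416358141509827966271488 G) (K.getD b PV.zero).x b'

def rn (G : ℕ) (n : INode) : Node :=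
  ⟨n.c / 2 ^ 44, fun b => (n.pL.getD b 0 : ℤ) / 2 ^ 44, fun b => (n.pR.getD b 0 : ℤ) / 2 ^ 44,
    fun b b' => kv G n.K b b' / 2 ^ 60⟩

structure KOK (g : Grid) (n : INode) : Prop where
  len : n.K.length = g.G
  rep : ∀ b < g.G, Rep g.G (n.K.getD b PV.zero) (kv g.G n.K b)
  sym : g.Sym (rn g.G n).K
  psd : g.Psd (rn g.G n).K

structure Good (g : Grid) (cs : ℝ) (n : INode) : Prop where
  k : KOK g n
  S : 0 < n.S
  ic : n.ic ≤ g.G
  cap : g.Cap (rn g.G n) ((n.S : ℝ) / (262144 : ℕ)) n.ic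
  bd : g.Bound 262144 n.S cs (rn g.G n)

variable {g : Grid} {A : List ℤ}

lemma GOK.dA (h : GOK g A) {b : ℕ} (hb : b < g.G) :
    (((cxOf g.G A).dA.getD b 0 : ℤ) : ℝ) = 2 ^ 8 * g.h b := by
  simp only [cxOf, mkCtx, zw_getD _ _ _ _ hb, zs, tl, Grid.h]
  push_cast
  rw [h.hA, h.hA]; ring

lemma KOK.repR {n : INode} (h : KOK g n) :
    ∀ b < n.K.length, RepR g.G (n.K.getD b PV.zero) fun k => 2 ^ 60 * (rn g.G n).K b k := fun b hb =>
  (h.rep b (h.len ▸ hb)).real fun k _ => by simp only [rn]; ring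

lemma KOK.comb {n : INode} (h : KOK g n) (m : List ℤ) :
    RepR g.G (comb m n.K) fun b => 2 ^ 70 * g.dot ((rn g.G n).K b) fun k => (m.getD k 0 : ℤ) / 2 ^ 10 := by
  refine (repR_comb m n.K _ h.repR).congr fun b hb => ?_
  simp only [Grid.dot, h.len, mul_sum]
  refine sum_congr rfl fun k hk => ?_
  rw [h.sym b hb k (mem_range.1 hk)]; ring

lemma dotG_eq {v : PV} {f : ℕ → ℝ} (h : RepR g.G v fun b => 2 ^ 70 * f b) (hs : v.small = true)
    (m : List ℤ) : (dotG (cxOf g.G A) m v : ℝ) = 2 ^ 80 * g.dot (fun k => (m.getD k 0 : ℤ) / 2 ^ 10) f := by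
  simp only [dotG, hd, sufZ_zw, cxOf, mkCtx, zm, Grid.dot, mul_sum, ← range_eq_Ico]
  push_cast
  refine sum_congr rfl fun k hk => ?_
  rw [range_getD (mem_range.1 hk), h.get hs (mem_range.1 hk)]; ring

lemma repR_p (l : List ℤ) : RepR g.G (pk g.G l) fun b => 2 ^ 44 * ((l.getD b 0 : ℤ) / 2 ^ 44) :=
  (repR_pk g.G l).congr fun _ _ => by ring

lemma cap_sound (hA : GOK g A) {n : INode} (hk : KOK g n) (hic : n.ic ≤ g.G) {mc : List ℤ}
    (h : capChk (cxOf g.G A) n mc = true) : g.Cap (rn g.G n) ((n.S : ℝ) / (262144 : ℕ)) n.ic := by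
  simp only [capChk, Bool.and_eq_true, zle_iff, za, zm, zs, zo] at h
  obtain ⟨⟨⟨h1, h2⟩, h3⟩, h4⟩ := h
  have hK := hk.comb mc
  have ho : RepR g.G (pk g.G (List.replicate n.ic 1)) fun b => if b < n.ic then 1 else 0 :=
    (repR_pk g.G _).congr fun b _ => by
      by_cases hb : b < n.ic <;> simp [hb]
  have hL := (((ho.smul 1180591620717411303424).add (hK.smul 2)).add
    ((repR_p n.pL).smul (-67108864))).nonneg h3
  have hR := (((ho.smul 1180591620717411303424).add (hK.smul 2)).add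
    ((repR_p n.pR).smul (-67108864))).nonneg h4
  refine g.cap_alg hic (m := fun k => (mc.getD k 0 : ℤ) / 2 ^ 10) hk.sym hk.psd ?_ ?_ ?_
  · refine nn_of_mul (P := 2 ^ 80) (by positivity) (Int.cast_nonneg_iff.2 h2) ?_
    push_cast
    rw [dotG_eq hK h1]
    change (_ + _ * ((A.getD n.ic 0 : ℤ) : ℝ)) * _ - _ - _ = _
    rw [hA.hA]
    simp only [rn]; ring
  · intro b hb
    refine nn_of_mul (P := 2 ^ 70) (by positivity) (hL b hb) ?_
    push_cast
    simp only [rn]; ring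
  · intro b hb
    refine nn_of_mul (P := 2 ^ 70) (by positivity) (hR b hb) ?_
    push_cast
    simp only [rn]; ring

lemma psv_le (S k : ℕ) (x : ℤ) (hk : 2048 < k) {a : ℝ} (hx : (x : ℝ) = 2 ^ 8 * a) :
    (psv S k x : ℝ) / 2 ^ 44 ≤
      ((k : ℝ) / 4096) ^ 15 * (16 - (S : ℝ) / (262144 : ℕ) * a - 15 * ((k : ℝ) / 4096)) := by
  have e : Nat.ble k 2048 = false := by
    cases h : Nat.ble k 2048
    · rfl
    · have := Nat.le_of_ble_eq_true h; omega
  simp only [psv, e, cond_false, zm, zs, zo]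
  set X : ℤ := ((Nat.pow k 15 : ℕ) : ℤ) * (4398046511104 - S * x * 4096 - (Nat.mul k 1006632960 : ℕ))
    with hX
  have h1 : Int.shiftRight X 174 * 2 ^ 174 ≤ X := by
    rw [← Int.shiftRight_eq, Int.shiftRight_eq_div_pow]
    exact Int.ediv_mul_le _ (by positivity)
  have h2 : ((Int.shiftRight X 174 : ℤ) : ℝ) * 2 ^ 174 ≤ X := by exact_mod_cast h1
  have h3 : (X : ℝ) = 2 ^ 218 *
      (((k : ℝ) / 4096) ^ 15 * (16 - (S : ℝ) / (262144 : ℕ) * a - 15 * ((k : ℝ) / 4096))) := by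
    rw [hX, Nat.pow_eq, Nat.mul_eq]
    push_cast
    rw [hx]; ring
  rw [div_le_iff₀ (by positivity)]
  refine le_of_mul_le_mul_right (h2.trans (le_of_eq ?_)) (show (0 : ℝ) < 2 ^ 174 by positivity)
  rw [h3]; ring

def psf (G S : ℕ) (ks : List ℕ) (A : List ℤ) (b : ℕ) : ℝ := ((psL G S ks A).getD b 0 : ℤ) / 2 ^ 44

lemma ps_ok (hA : GOK g A) (S0 S1 : ℕ) (ks : List ℕ) :
    g.PS ((S0 : ℝ) / (262144 : ℕ)) ((S1 : ℝ) / (262144 : ℕ)) (psf g.G S0 ks A) (psf g.G S0 ks A.tail)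
      (psf g.G S1 ks A) (psf g.G S1 ks A.tail) := by
  refine g.ps_alg fun b hb => ?_
  simp only [psf, psL, zw_getD _ _ _ _ hb, tl]
  by_cases hk : ks.getD b 0 ≤ 2048
  · left
    have e : Nat.ble (ks.getD b 0) 2048 = true := Nat.ble_eq_true_of_le hk
    simp only [psv, e, cond_true]
    norm_num
  · have hk' : 2048 < ks.getD b 0 := by omega
    refine Or.inr ⟨(ks.getD b 0 : ℕ) / 4096, ?_, psv_le _ _ _ hk' (hA.hA b), psv_le _ _ _ hk' (hA.hA (b + 1)),
      psv_le _ _ _ hk' (hA.hA b), psv_le _ _ _ hk' (hA.hA (b + 1))⟩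
    have : 0 < ks.getD b 0 := by omega
    positivity

lemma repR_RL (hA : GOK g A) {i : ℕ} (hi : i ≤ g.G) : RepR g.G ((cxOf g.G A).RL.getD i PV.zero)
    fun b => if b + 1 < i then 2 ^ 16 * (g.a i - g.a b) else 0 := by
  simp only [cxOf, mkCtx, mkRL, zw_getD _ _ _ _ (Nat.lt_succ_of_le hi), range_getD (Nat.lt_succ_of_le hi)]
  refine (repR_pk _ _).congr fun b hb => ?_
  simp only [rampList, zw_getD _ _ _ _ hb, range_getD hb, cond_blt, zm, zs, Nat.succ_eq_add_one]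
  split_ifs
  · push_cast
    rw [hA.hA, hA.hA]; ring
  · simp

lemma repR_RR (hA : GOK g A) {i : ℕ} (hi : i ≤ g.G) : RepR g.G ((cxOf g.G A).RR.getD i PV.zero)
    fun b => if b + 1 < i then 2 ^ 16 * (g.a i - g.a (b + 1)) else 0 := by
  simp only [cxOf, mkCtx, mkRR, zw_getD _ _ _ _ (Nat.lt_succ_of_le hi), range_getD (Nat.lt_succ_of_le hi)]
  refine (repR_pk _ _).congr fun b hb => ?_
  simp only [rampList, zw_getD _ _ _ _ hb, range_getD hb, cond_blt, zm, zs, Nat.succ_eq_add_one, tl]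
  split_ifs
  · push_cast
    rw [hA.hA, hA.hA]; ring
  · simp

lemma repR_cum (hA : GOK g A) {n : INode} (hk : KOK g n) (i : ℕ) :
    RepR g.G ((sufPV (cxOf g.G A).dA n.K).getD i PV.zero) fun b => 2 ^ 68 * g.cum (rn g.G n).K i b := by
  refine (repR_sufPV _ _ _ hk.repR i).congr fun b _ => ?_
  simp only [Grid.cum, hk.len, mul_sum]
  exact sum_congr rfl fun j hj => by rw [hA.dA (mem_Ico.1 hj).2]; ring

lemma phi_eq (hA : GOK g A) (n : INode) (i : ℕ) :
    (((phiL (cxOf g.G A) n).getD i 0 : ℤ) : ℝ) = 2 ^ 52 * g.Phi (rn g.G n) i := by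
  simp only [phiL, sufZ_zw, zm, za, Grid.Phi, mul_sum]
  push_cast
  exact sum_congr rfl fun j hj => by rw [hA.dA (mem_Ico.1 hj).2]; simp only [rn]; ring

lemma dg_eq (hA : GOK g A) (n : INode) (i : ℕ) :
    (((dgL (cxOf g.G A) n).getD i 0 : ℤ) : ℝ) = 2 ^ 68 * g.dg (rn g.G n).K i := by
  simp only [dgL, sufZ_zw, zm, Grid.dg, mul_sum]
  push_cast
  refine sum_congr rfl fun j hj => ?_
  rw [hA.dA (mem_Ico.1 hj).2]
  have e : (cxOf g.G A).idx.getD j 0 = j := range_getD (mem_Ico.1 hj).2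
  rw [e]
  change _ * (kv g.G n.K j j : ℝ) = _
  simp only [rn]; ring

def crf (E : List ℤ) (ic i : ℕ) : ℝ :=
  ((if i < ic then max (E.getD i 0) (E.getD (i + 1) 0) else E.getD i 0 : ℤ) : ℝ) / 2 ^ 81

lemma cr_ok (hA : GOK g A) (n : INode) {ic : ℕ} (hic : ic ≤ g.G) :
    g.CrOK (rn g.G n) ((n.S : ℝ) / (262144 : ℕ)) (crf (0 :: crL (cxOf g.G A) n) ic) ic := by
  intro i hi
  have hG : i < g.G := by omega
  set E := 0 :: crL (cxOf g.G A) n with hE
  have h1 : E.getD (i + 1) 0 ≤ if i < ic then max (E.getD i 0) (E.getD (i + 1) 0) else E.getD i 0 := by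
    rw [if_pos hi]; exact le_max_right _ _
  have h2 : E.getD (i + 1) 0 ≤ if i + 1 < ic then max (E.getD (i + 1) 0) (E.getD (i + 1 + 1) 0)
      else E.getD (i + 1) 0 := by
    split_ifs
    exacts [le_max_left _ _, le_rfl]
  have h3 : ((E.getD (i + 1) 0 : ℤ) : ℝ) = max 0 (2 ^ 81 * ((((n.S : ℝ) / (262144 : ℕ)) * g.h i ^ 2 -
      ((rn g.G n).pR i - (rn g.G n).pL i) * g.h i) / 8)) := by
    have hG' : i < (cxOf g.G A).G := hG
    simp only [hE, List.getD_cons_succ, crL, zw_getD _ _ _ _ hG', zmax_eq, zm, zs, zo]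
    push_cast
    rw [hA.dA hG]
    simp only [rn]
    congr 1; ring
  have h4 : (0 : ℝ) ≤ (E.getD (i + 1) 0 : ℤ) := h3 ▸ le_max_left _ _
  have h5 := h3 ▸ le_max_right (0 : ℝ) (2 ^ 81 * ((((n.S : ℝ) / (262144 : ℕ)) * g.h i ^ 2 -
      ((rn g.G n).pR i - (rn g.G n).pL i) * g.h i) / 8))
  have h6 := (Int.cast_le (R := ℝ)).2 h1
  have h7 := (Int.cast_le (R := ℝ)).2 h2
  simp only [crf]
  refine ⟨div_nonneg (h4.trans h6) (by positivity), div_nonneg (h4.trans h7) (by positivity), ?_, ?_⟩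
  · rw [le_div_iff₀ (by positivity), mul_comm]; exact h5.trans h6
  · rw [le_div_iff₀ (by positivity), mul_comm]; exact h5.trans h7

end
end Pool.Agent.MP_3bf126_pr.H40
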