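import Pool.Agent.MP_3bf126_pr.H40.Prob

/-! One-step inequality in rescaled coordinates `x = n (1 - s)`. -/

namespace Pool.Agent.MP_3bf126_pr.H40
open MeasureTheory Set
open scoped ENNReal
noncomputable section

def HasI (f : ℝ → ℝ) (u v I : ℝ) : Prop :=
  IntervalIntegrable f volume u v ∧ ∫ x in u..v, f x = I

lemma HasI.congr {f g : ℝ → ℝ} {u v I : ℝ} (h : HasI f u v I) (huv : u ≤ v)
    (e : ∀ x, u < x → x < v → f x = g x) : HasI g u v I := by
  have e' : (uIoo u v).EqOn f g := by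
    rw [uIoo_of_le huv]; exact fun x hx => e x hx.1 hx.2
  refine ⟨h.1.congr_uIoo e', ?_⟩
  rw [← h.2, intervalIntegral.integral_congr_uIoo e']

lemma HasI.trans {f : ℝ → ℝ} {u v w I J : ℝ} (h : HasI f u v I) (h' : HasI f v w J) :
    HasI f u w (I + J) :=
  ⟨h.1.trans h'.1, by rw [← intervalIntegral.integral_add_adjacent_intervals h.1 h'.1, h.2, h'.2]⟩

lemma HasI.add {f g : ℝ → ℝ} {u v I J : ℝ} (h : HasI f u v I) (h' : HasI g u v J) :
    HasI (fun x => f x + g x) u v (I + J) :=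
  ⟨h.1.add h'.1, by rw [intervalIntegral.integral_add h.1 h'.1, h.2, h'.2]⟩

lemma HasI.smul {f : ℝ → ℝ} {u v I : ℝ} (h : HasI f u v I) (c : ℝ) :
    HasI (fun x => c * f x) u v (c * I) :=
  ⟨h.1.const_mul c, by rw [intervalIntegral.integral_const_mul, h.2]⟩

lemma HasI.eq {f : ℝ → ℝ} {u v I J : ℝ} (h : HasI f u v I) (e : I = J) : HasI f u v J := e ▸ h

lemma hasI_lin (p q u v : ℝ) : HasI (fun x => p + q * x) u v (p * (v - u) + q * (v ^ 2 - u ^ 2) / 2) := by
  refine ⟨(by fun_prop : Continuous fun x : ℝ => p + q * x).intervalIntegrable _ _, ?_⟩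
  rw [intervalIntegral.integral_add (by simp) ((by fun_prop : Continuous fun x : ℝ => q * x).intervalIntegrable _ _),
    intervalIntegral.integral_const_mul, integral_id]
  simp; ring

lemma hasI_const (p u v : ℝ) : HasI (fun _ => p) u v (p * (v - u)) := by
  simpa using hasI_lin p 0 u v

def Vx (n : ℝ) (r : ℕ) (ξ : List ℝ) : ℝ≥0∞ := Val r (ξ.map fun x => 1 - x / n)

def cl (ξ : List ℝ) (x : ℝ) : ℝ := (ξ.map fun v => if v < x then (1 : ℝ) else 0).sum

def pos (ξ : List ℝ) (θ : ℝ) : ℝ := (ξ.map fun v => max (θ - v) 0).sum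

def acc (s : ℝ) (ξ : List ℝ) (x : ℝ) : ℝ := 1 + s * x + cl ξ x

lemma cl_mono (ξ : List ℝ) {x y : ℝ} (h : x ≤ y) : cl ξ x ≤ cl ξ y := by
  induction ξ with
  | nil => simp [cl]
  | cons v ξ ih =>
    simp only [cl, List.map_cons, List.sum_cons] at ih ⊢
    gcongr
    split_ifs with h1 h2
    · rfl
    · exact absurd (h1.trans_le h) h2
    · norm_num
    · rfl

lemma acc_mono {s : ℝ} (hs : 0 ≤ s) (ξ : List ℝ) {x y : ℝ} (h : x ≤ y) : acc s ξ x ≤ acc s ξ y := by
  unfold acc
  have := cl_mono ξ h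
  have := mul_le_mul_of_nonneg_left h hs
  linarith

lemma hasI_cl (ξ : List ℝ) (h : ∀ v ∈ ξ, 0 ≤ v) {θ : ℝ} (h0 : 0 ≤ θ) :
    HasI (cl ξ) 0 θ (pos ξ θ) := by
  induction ξ with
  | nil => exact (hasI_const 0 0 θ).eq (by simp [pos])
  | cons v ξ ih =>
    have hv := h v (by simp)
    have ih' := ih fun u hu => h u (by simp [hu])
    have h1 : HasI (fun x => if v < x then (1 : ℝ) else 0) 0 θ (max (θ - v) 0) := by
      rcases le_total v θ with hθ | hθ
      · have a1 := (hasI_const 0 0 v).congr (g := fun x => if v < x then (1 : ℝ) else 0) hv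
          (fun x _ h2 => by simp [h2.le])
        have a2 := (hasI_const 1 v θ).congr (g := fun x => if v < x then (1 : ℝ) else 0) hθ
          (fun x h1 _ => by simp [h1])
        exact (a1.trans a2).eq (by rw [max_eq_left (by linarith)]; ring)
      · exact ((hasI_const 0 0 θ).congr (g := fun x => if v < x then (1 : ℝ) else 0) h0
          (fun x _ h2 => by simp [(h2.le.trans hθ)])).eq (by rw [max_eq_right (by linarith)]; ring)
    exact h1.add ih'

lemma hasI_acc (s : ℝ) (ξ : List ℝ) (h : ∀ v ∈ ξ, 0 ≤ v) {θ : ℝ} (h0 : 0 ≤ θ) :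
    HasI (acc s ξ) 0 θ (θ + s * θ ^ 2 / 2 + pos ξ θ) :=
  ((hasI_lin 1 s 0 θ).add (hasI_cl ξ h h0)).eq (by ring)

lemma acc_le_Acc {n : ℝ} (hn : 0 < n) (r : ℕ) (ξ : List ℝ) (x : ℝ) :
    ENNReal.ofReal (acc (r / n) ξ x) ≤ Acc r (ξ.map fun x => 1 - x / n) (1 - x / n) := by
  have h1 : ENNReal.ofReal (cl ξ x) ≤ cnt (ξ.map fun x => 1 - x / n) (1 - x / n) := by
    induction ξ with
    | nil => simp [cl]
    | cons v ξ ih =>
      simp only [cl, cnt, List.map_cons, List.sum_cons] at ih ⊢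
      refine ENNReal.ofReal_add_le.trans (add_le_add ?_ ih)
      unfold ind
      split_ifs with h1 h2
      · simp
      · exact absurd (by have := div_lt_div_of_pos_right h1 hn; linarith) h2
      · simp
      · simp
  unfold acc Acc
  refine ENNReal.ofReal_add_le.trans (add_le_add (ENNReal.ofReal_add_le.trans (add_le_add (by simp) ?_)) h1)
  rw [← ENNReal.ofReal_natCast, ← ENNReal.ofReal_mul (by positivity)]
  exact le_of_eq (by congr 1; ring)

lemma stepX {n : ℝ} (hn : 0 < n) (r : ℕ) (ξ : List ℝ) (l : ℝ → ℝ) (I θ : ℝ) (hI : HasI l 0 n I)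
    (h : ∀ x, 0 ≤ x → x ≤ n → x ≠ θ → ENNReal.ofReal (l x) ≤ Vx n (r + 1) (x :: ξ) ∧
      ENNReal.ofReal (l x) ≤ ENNReal.ofReal (acc (((r + 1 : ℕ) : ℝ) / n) ξ x)) :
    ENNReal.ofReal (I / n) ≤ Vx n (r + 2) ξ := by
  refine le_trans ?_ (step_ge _)
  have hint : IntervalIntegrable (fun y => l (n - n * y)) volume 0 1 := by
    have := (hI.1.comp_sub_left n).comp_mul_left (c := n)
    simpa [hn.ne'] using this.symm
  have hval : ∫ y in (0 : ℝ)..1, l (n - n * y) = I / n := by
    rw [intervalIntegral.integral_comp_sub_mul l hn.ne' n]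
    simp [hI.2]; ring
  have hU : Integrable (fun y => l (n - n * y)) U := by
    rw [intervalIntegrable_iff_integrableOn_Icc_of_le zero_le_one] at hint
    exact hint
  have hv2 : ∫ y, l (n - n * y) ∂U = I / n := by
    rw [← hval, intervalIntegral.integral_of_le zero_le_one, U, integral_Icc_eq_integral_Ioc]
  calc ENNReal.ofReal (I / n) ≤ ENNReal.ofReal (∫ y, max (l (n - n * y)) 0 ∂U) := by
        rw [← hv2]
        exact ENNReal.ofReal_le_ofReal (integral_mono hU hU.pos_part fun y => le_max_left _ _)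
    _ = ∫⁻ y, ENNReal.ofReal (max (l (n - n * y)) 0) ∂U :=
        ofReal_integral_eq_lintegral_ofReal hU.pos_part (ae_of_all _ fun y => le_max_right _ _)
    _ ≤ _ := by
        refine lintegral_mono_ae ?_
        have h1 : ∀ᵐ y ∂U, y ∈ Icc (0 : ℝ) 1 := ae_restrict_mem measurableSet_Icc
        have h2 : ∀ᵐ y ∂U, y ≠ 1 - θ / n := ae_restrict_of_ae (Measure.ae_ne volume _)
        filter_upwards [h1, h2] with y hy hy2
        have e : 1 - (n - n * y) / n = y := by field_simp; ring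
        have := h (n - n * y) (by nlinarith [hy.2]) (by nlinarith [hy.1]) (by
          intro e2; apply hy2; rw [← e2, e])
        rw [ENNReal.ofReal_max, ENNReal.ofReal_zero, max_eq_left (zero_le)]
        refine le_min ?_ ?_
        · have h3 := this.2.trans (acc_le_Acc hn (r + 1) ξ _)
          rwa [e] at h3
        · have h3 := this.1
          simp only [Vx, List.map_cons] at h3
          rwa [e] at h3

lemma Vx_anti {n : ℝ} (hn : 0 < n) (r : ℕ) (ξ : List ℝ) {x y : ℝ} (h : x ≤ y) :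
    Vx n r (y :: ξ) ≤ Vx n r (x :: ξ) := by
  simp only [Vx, List.map_cons]
  apply Val_mono
  have := div_le_div_of_nonneg_right h hn.le
  linarith

/-- the abstract subsolution step -/
lemma stepW {n X θc : ℝ} (hX : X < n) (hc0 : 0 ≤ θc) (hc : θc ≤ X) (r : ℕ) (ξ : List ℝ)
    (hξ : ∀ v ∈ ξ, 0 ≤ v) (W : ℝ → ℝ) (W0 Ws w : ℝ)
    (hIH : ∀ x, 0 ≤ x → x ≤ n → ENNReal.ofReal (W x) ≤ Vx n (r + 1) (x :: ξ))
    (hWs : ∀ x, 0 ≤ x → x ≤ n → ENNReal.ofReal Ws ≤ Vx n (r + 1) (x :: ξ))
    (hfar : ∀ x, X ≤ x → W x = W0)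
    (hcap : ∀ x, θc ≤ x → W x ≤ acc (((r + 1 : ℕ) : ℝ) / n) ξ x)
    (hcapS : ∀ x, X ≤ x → Ws ≤ acc (((r + 1 : ℕ) : ℝ) / n) ξ x)
    (hE : ∀ θ, 0 ≤ θ → θ ≤ θc → ∃ I lam, HasI W θ X I ∧ 0 ≤ lam ∧ lam ≤ n - X ∧
      n * w ≤ θ + (((r + 1 : ℕ) : ℝ) / n) * θ ^ 2 / 2 + pos ξ θ + I + (n - X) * W0 - lam * (W0 - Ws)) :
    ENNReal.ofReal w ≤ Vx n (r + 2) ξ := by
  have hn : 0 < n := by linarith
  set s : ℝ := ((r + 1 : ℕ) : ℝ) / n with hs
  have hs0 : 0 ≤ s := by positivity
  set T : Set ℝ := {x | x = 0 ∨ (0 ≤ x ∧ x ≤ n ∧ ENNReal.ofReal (acc s ξ x) ≤ Vx n (r + 1) (x :: ξ))}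
  have hTb : BddAbove T := ⟨n, fun x hx => by rcases hx with h | h; exacts [h ▸ hn.le, h.2.1]⟩
  have hT0 : (0 : ℝ) ∈ T := Or.inl rfl
  set θ := min (sSup T) θc with hθ
  have h0 : 0 ≤ θ := le_min (le_csSup hTb hT0) hc0
  have hθc : θ ≤ θc := min_le_right _ _
  obtain ⟨I, lam, hI, hl0, hl1, hw⟩ := hE θ h0 hθc
  set κ := lam / (n - X)
  have hk0 : 0 ≤ κ := div_nonneg hl0 (by linarith)
  have hk1 : κ ≤ 1 := (div_le_one (by linarith)).2 hl1
  have hk : κ * (n - X) = lam := div_mul_cancel₀ _ (by linarith)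
  set l : ℝ → ℝ := fun x => if x < θ then acc s ξ x else if x < X then W x else W0 - κ * (W0 - Ws)
  have a1 := (hasI_acc s ξ hξ h0).congr (g := l) h0 (fun x _ h2 => by simp [l, h2])
  have a2 := hI.congr (g := l) (hθc.trans hc) (fun x h1 h2 => by simp [l, h1.le, h2])
  have a3 := (hasI_const (W0 - κ * (W0 - Ws)) X n).congr (g := l) hX.le
    (fun x h1 _ => by
      have : ¬ x < θ := by linarith
      simp [l, this, h1.le])
  have key := stepX hn r ξ l _ θ ((a1.trans a2).trans a3) (by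
    intro x hx0 hxn hxθ
    by_cases h1 : x < θ
    · simp only [l, h1, if_true]
      refine ⟨?_, le_rfl⟩
      obtain ⟨y, hy, hxy⟩ := exists_lt_of_lt_csSup ⟨0, hT0⟩ (h1.trans_le (min_le_left _ _))
      rcases hy with hy | hy
      · linarith
      · exact (ENNReal.ofReal_le_ofReal (acc_mono hs0 ξ hxy.le)).trans
          (hy.2.2.trans (Vx_anti hn _ ξ hxy.le))
    · have hgt : θ < x := lt_of_le_of_ne (not_lt.1 h1) (Ne.symm hxθ)
      have hV : ENNReal.ofReal (l x) ≤ Vx n (r + 1) (x :: ξ) := by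
        by_cases h2 : x < X
        · simp only [l, h1, h2, if_true, if_false]; exact hIH x hx0 hxn
        · simp only [l, h1, h2, if_false]
          have b1 := hIH x hx0 hxn
          rw [hfar x (not_lt.1 h2)] at b1
          rcases le_total W0 Ws with h3 | h3
          · exact (ENNReal.ofReal_le_ofReal (by nlinarith)).trans (hWs x hx0 hxn)
          · exact (ENNReal.ofReal_le_ofReal (by nlinarith)).trans b1
      refine ⟨hV, ?_⟩
      rcases min_lt_iff.1 hgt with h3 | h3
      · by_contra hcon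
        have : x ∈ T := Or.inr ⟨hx0, hxn, (not_le.1 hcon).le.trans hV⟩
        exact absurd (le_csSup hTb this) (not_le.2 h3)
      · apply ENNReal.ofReal_le_ofReal
        by_cases h2 : x < X
        · simp only [l, h1, h2, if_true, if_false]; exact hcap x h3.le
        · simp only [l, h1, h2, if_false]
          have b1 := hcap x h3.le
          have b2 := hcapS x (not_lt.1 h2)
          rw [hfar x (not_lt.1 h2)] at b1
          nlinarith)
  refine le_trans (ENNReal.ofReal_le_ofReal ?_) key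
  rw [le_div_iff₀ hn]
  have : (W0 - κ * (W0 - Ws)) * (n - X) = (n - X) * W0 - lam * (W0 - Ws) := by rw [← hk]; ring
  rw [this]; linarith

/-- one extra observation costs little -/
lemma fill_one (r : ℕ) {c : ℝ} (hc0 : 0 ≤ c) (hc : c ≤ r + 1) (h : ENNReal.ofReal c ≤ Val (r + 1) []) :
    ENNReal.ofReal (c - c ^ 2 / (r + 1)) ≤ Val (r + 2) [] := by
  have hn : (0 : ℝ) < r + 1 := by positivity
  set l : ℝ → ℝ := fun x => if x < c then 0 else c
  have a1 := (hasI_const 0 0 c).congr (g := l) hc0 (fun x _ h2 => by simp [l, h2])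
  have a2 := (hasI_const c c (r + 1)).congr (g := l) hc (fun x h1 _ => by simp [l, h1.le])
  have key := stepX hn r [] l _ 0 (a1.trans a2) (by
    intro x hx0 hxn _
    by_cases h1 : x < c
    · simp [l, h1]
    · simp only [l, h1, if_false]
      constructor
      · refine h.trans (le_trans le_self_add (Val_cons (r + 1) [] (v := 1 - x / (r + 1)) ?_ ?_))
        · have := (div_le_one hn).2 hxn; linarith
        · have := div_nonneg hx0 hn.le; linarith
      · apply ENNReal.ofReal_le_ofReal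
        have : ((r + 1 : ℕ) : ℝ) / (r + 1) = 1 := by push_cast; exact div_self hn.ne'
        simp only [acc, this, cl, List.map_nil, List.sum_nil]
        linarith)
  refine le_trans (le_of_eq ?_) key
  congr 1; field_simp; ring

end
end Pool.Agent.MP_3bf126_pr.H40
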